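import Pool.Agent.Helper71.SEYApi

/-!
Basic API for the Seymour project, second part: 3-connected matroids (`TC`), minimal cycles,
`HasMinor`, `IsIso`, `NoF`, duality for the concrete matroids.
-/

namespace SEY

open Finset Submodule BM

variable {E : Type} [Fintype E] [DecidableEq E]

namespace BM

variable {M : BM E}

/-! ### 3-connected matroids -/

lemma TC.card (h : M.TC) : 4 ≤ M.S.card := h.1

lemma TC.of_lam_zero (h : M.TC) {A : Finset E} (hA : A ⊆ M.S) (h0 : M.lam A = 0) :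
    A = ∅ ∨ A = M.S := (h.2 A hA).1 h0

lemma TC.of_lam_one (h : M.TC) {A : Finset E} (hA : A ⊆ M.S) (h0 : M.lam A ≤ 1) :
    A.card ≤ 1 ∨ (M.S \ A).card ≤ 1 := (h.2 A hA).2 h0

lemma TC.two_le_lam (h : M.TC) {A : Finset E} (hA : A ⊆ M.S) (h1 : 2 ≤ A.card)
    (h2 : 2 ≤ (M.S \ A).card) : 2 ≤ M.lam A := by
  by_contra h3
  rcases h.of_lam_one hA (by omega) with h4 | h4 <;> omega

lemma TC.one_le_lam (h : M.TC) {A : Finset E} (hA : A ⊆ M.S) (h1 : A ≠ ∅)
    (h2 : A ≠ M.S) : 1 ≤ M.lam A := by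
  by_contra h3
  rcases h.of_lam_zero hA (by omega) with h4 | h4
  · exact h1 h4
  · exact h2 h4

lemma TC.dual (h : M.TC) : M.dual.TC := by
  refine ⟨h.1, fun A hA => ?_⟩
  rw [lam_dual]
  exact h.2 A hA

lemma tc_dual_iff : M.dual.TC ↔ M.TC :=
  ⟨fun h => by simpa using h.dual, fun h => h.dual⟩

/-- every nonzero row of a 3-connected matroid has weight at least 3 -/
lemma TC.row_weight (h : M.TC) {f : E → ZMod 2} (hf : f ∈ M.R) (h0 : f ≠ 0) :
    3 ≤ (spt f).card := by
  by_contra hlt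
  have hA := M.spt_subset_of_mem hf
  have h1 : 0 < M.dR (spt f) :=
    M.dR_pos_iff.2 ⟨f, hf, h0, fun e he => notMem_spt.1 he⟩
  have h2 := M.lam_add_dR_eq_r (spt f)
  have h3 := M.r_le_card (spt f)
  have h4 : (spt f).card ≠ 0 := by
    rw [Ne, Finset.card_eq_zero, spt_eq_empty]; exact h0
  have h5 := Finset.card_sdiff_add_card_eq_card hA
  have h6 := h.card
  by_cases h7 : (spt f).card = 1
  · rcases h.of_lam_zero hA (by omega) with h8 | h8
    · rw [h8] at h4; simp at h4
    · rw [← h8] at h6; omega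
  · rcases h.of_lam_one hA (by omega) with h8 | h8 <;> omega

/-- every nonzero cycle of a 3-connected matroid has weight at least 3 -/
lemma TC.cycle_weight (h : M.TC) {z : E → ZMod 2} (hz : z ∈ M.Z) (h0 : z ≠ 0) :
    3 ≤ (spt z).card := h.dual.row_weight (f := z) hz h0

lemma TC.exists_cycle (h : M.TC) {e : E} (he : e ∈ M.S) : ∃ z ∈ M.Z, z e = 1 := by
  by_contra hcon
  push_neg at hcon
  have h1 : ind {e} ∈ M.R := by
    rw [mem_R_iff]
    refine ⟨fun x hx => ?_, fun z hz => ?_⟩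
    · rw [ind_of_notMem]
      simp only [Finset.mem_singleton]
      rintro rfl
      exact hx he
    · rw [ind_dot, Finset.sum_singleton]
      exact z_ne_one.1 (hcon z hz)
  have h2 := h.row_weight h1 (by rw [Ne, ind_eq_zero]; simp)
  rw [spt_ind, Finset.card_singleton] at h2
  omega

lemma TC.exists_row (h : M.TC) {e : E} (he : e ∈ M.S) : ∃ f ∈ M.R, f e = 1 := by
  obtain ⟨z, hz, h1⟩ := h.dual.exists_cycle (e := e) he
  rw [dual_Z] at hz
  exact ⟨z, hz, h1⟩

lemma TC.exists_cycle_ne (h : M.TC) {e e' : E} (he : e ∈ M.S) (he' : e' ∈ M.S) (hne : e ≠ e') :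
    ∃ z ∈ M.Z, z e = 1 ∧ z e' = 0 := by
  by_contra hcon
  push_neg at hcon
  obtain ⟨w, hw, hw1⟩ := h.exists_cycle he'
  have h0 : ∀ z ∈ M.Z, z e = z e' := by
    intro z hz
    rcases zcases (z e) with h1 | h1
    · rcases zcases (z e') with h2 | h2
      · rw [h1, h2]
      · exfalso
        rcases zcases (w e) with h3 | h3
        · -- no cycle with `e` at all would contradict `exists_cycle`
          obtain ⟨u, hu, hu1⟩ := h.exists_cycle he
          have hu2 := z_ne_zero.1 (hcon u hu hu1)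
          have h4 := hcon (u + z) (M.Z.add_mem hu hz) (by simp [hu1, h1])
          exact h4 (by simp [hu2, h2, z_add_self])
        · have h5 := z_ne_zero.1 (hcon w hw h3)
          have h4 := hcon (w + z) (M.Z.add_mem hw hz) (by simp [h3, h1])
          exact h4 (by simp [h5, h2, z_add_self])
    · rw [h1, z_ne_zero.1 (hcon z hz h1)]
  have h1 : ind {e, e'} ∈ M.R := by
    rw [mem_R_iff]
    refine ⟨fun x hx => ?_, fun z hz => ?_⟩
    · rw [ind_of_notMem]
      simp only [Finset.mem_insert, Finset.mem_singleton]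
      rintro (rfl | rfl)
      · exact hx he
      · exact hx he'
    · rw [ind_dot, Finset.sum_pair hne, z_add_eq_zero]
      exact h0 z hz
  have h2 := h.row_weight h1 (by rw [Ne, ind_eq_zero]; simp)
  rw [spt_ind, Finset.card_pair hne] at h2
  omega

lemma TC.exists_row_ne (h : M.TC) {e e' : E} (he : e ∈ M.S) (he' : e' ∈ M.S) (hne : e ≠ e') :
    ∃ f ∈ M.R, f e = 1 ∧ f e' = 0 := by
  obtain ⟨z, hz, h1⟩ := h.dual.exists_cycle_ne (e := e) (e' := e') he he' hne
  rw [dual_Z] at hz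
  exact ⟨z, hz, h1⟩

lemma TC.not_ser (h : M.TC) {e e' : E} (he : e ∈ M.S) (he' : e' ∈ M.S) (hne : e ≠ e') :
    ¬ M.Ser e e' := by
  intro hs
  obtain ⟨z, hz, h1, h2⟩ := h.exists_cycle_ne he he' hne
  have := hs z hz
  rw [h1, h2] at this
  exact one_ne_zero this

/-- sets with at most two elements are independent -/
lemma TC.r_small (h : M.TC) {A : Finset E} (hA : A ⊆ M.S) (h2 : A.card ≤ 2) :
    M.r A = A.card := by
  have h1 := M.r_add_dZ hA
  have h3 : M.dZ A = 0 := by
    rw [dZ_eq_zero_iff]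
    intro z hz hzA
    by_contra h0
    have h4 := h.cycle_weight hz h0
    have h5 := Finset.card_le_card (spt_subset.2 hzA)
    omega
  omega

lemma TC.r_singleton (h : M.TC) {e : E} (he : e ∈ M.S) : M.r {e} = 1 := by
  rw [h.r_small (by simpa using he) (by simp)]; simp

lemma TC.r_pair (h : M.TC) {e e' : E} (he : e ∈ M.S) (he' : e' ∈ M.S) (hne : e ≠ e') :
    M.r {e, e'} = 2 := by
  rw [h.r_small (by intro x; simp; rintro (rfl | rfl) <;> assumption)
    (by rw [Finset.card_pair hne]), Finset.card_pair hne]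

lemma TC.lam_singleton (h : M.TC) {e : E} (he : e ∈ M.S) : M.lam {e} = 1 := by
  have h1 := h.one_le_lam (A := {e}) (by simpa using he) (by simp) (by
    intro h2
    have := h.card
    rw [← h2] at this
    simp at this)
  have h2 := M.lam_le_card {e}
  simp at h2
  omega

lemma TC.lam_pair (h : M.TC) {e e' : E} (he : e ∈ M.S) (he' : e' ∈ M.S) (hne : e ≠ e') :
    M.lam {e, e'} = 2 := by
  have hs : ({e, e'} : Finset E) ⊆ M.S := by intro x; simp; rintro (rfl | rfl) <;> assumption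
  have h3 := Finset.card_sdiff_add_card_eq_card hs
  rw [Finset.card_pair hne] at h3
  have h4 := h.card
  have h1 := h.two_le_lam hs (by rw [Finset.card_pair hne]) (by omega)
  have h2 := M.lam_le_card {e, e'}
  rw [Finset.card_pair hne] at h2
  omega

end BM

/-! ### Minimal vectors of a space -/

/-- `c` is a minimal nonzero vector of `Z` -/
def IsMin (Z : Submodule (ZMod 2) (E → ZMod 2)) (c : E → ZMod 2) : Prop :=
  c ∈ Z ∧ c ≠ 0 ∧ ∀ w ∈ Z, w ≠ 0 → spt w ⊆ spt c → w = c

lemma spt_add_of_subset {z w : E → ZMod 2} (h : spt w ⊆ spt z) :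
    spt (z + w) = spt z \ spt w := by
  rw [spt_add, symmDiff_def, Finset.sup_eq_union]
  ext e
  simp only [Finset.mem_union, Finset.mem_sdiff]
  constructor
  · rintro (h1 | h1)
    · exact h1
    · exact absurd (h h1.1) h1.2
  · exact Or.inl

/-- every nonzero vector contains a minimal one through a given element of its support -/
lemma exists_isMin (Z : Submodule (ZMod 2) (E → ZMod 2)) :
    ∀ (n : ℕ) (z : E → ZMod 2), (spt z).card ≤ n → z ∈ Z → ∀ e, z e = 1 →
      ∃ c, IsMin Z c ∧ c e = 1 ∧ spt c ⊆ spt z := by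
  intro n
  induction n with
  | zero =>
    intro z hn hz e he
    have := Finset.card_eq_zero.1 (Nat.le_zero.1 hn)
    have h2 := mem_spt'.2 he
    rw [this] at h2
    simp at h2
  | succ n ih =>
    intro z hn hz e he
    by_cases hmin : ∀ w ∈ Z, w ≠ 0 → spt w ⊆ spt z → w = z
    · refine ⟨z, ⟨hz, ?_, hmin⟩, he, Finset.Subset.refl _⟩
      rintro rfl
      simp at he
    · push_neg at hmin
      obtain ⟨w, hw, hw0, hws, hwz⟩ := hmin
      have hlt : (spt w).card < (spt z).card := by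
        refine Finset.card_lt_card (lt_of_le_of_ne hws (fun h => hwz ?_))
        have := congrArg (ind (E := E)) h
        rwa [ind_spt, ind_spt] at this
      rcases zcases (w e) with h1 | h1
      · have hz2 : spt (z + w) = spt z \ spt w := spt_add_of_subset hws
        have hpos : (spt w).card ≠ 0 := by
          rw [Ne, Finset.card_eq_zero, spt_eq_empty]; exact hw0
        have h3 := Finset.card_sdiff_add_card_eq_card hws
        obtain ⟨c, hc, hce, hcs⟩ := ih (z + w) (by rw [hz2]; omega) (Z.add_mem hz hw) e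
          (by simp [he, h1])
        exact ⟨c, hc, hce, hcs.trans (by rw [hz2]; exact Finset.sdiff_subset)⟩
      · obtain ⟨c, hc, hce, hcs⟩ := ih w (by omega) hw e h1
        exact ⟨c, hc, hce, hcs.trans hws⟩

lemma exists_isMin_of_mem {Z : Submodule (ZMod 2) (E → ZMod 2)} {z : E → ZMod 2} (hz : z ∈ Z)
    {e : E} (he : z e = 1) : ∃ c, IsMin Z c ∧ c e = 1 ∧ spt c ⊆ spt z :=
  exists_isMin Z _ z le_rfl hz e he

/-- every vector is a sum of minimal vectors with pairwise disjoint supports -/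
lemma isMin_decomp (Z : Submodule (ZMod 2) (E → ZMod 2)) :
    ∀ (n : ℕ) (z : E → ZMod 2), (spt z).card ≤ n → z ∈ Z →
      ∃ l : List (E → ZMod 2), (∀ c ∈ l, IsMin Z c ∧ spt c ⊆ spt z) ∧ l.sum = z ∧
        l.Pairwise (fun c d => Disjoint (spt c) (spt d)) := by
  intro n
  induction n with
  | zero =>
    intro z hn hz
    have := spt_eq_empty.1 (Finset.card_eq_zero.1 (Nat.le_zero.1 hn))
    exact ⟨[], by simp, by simp [this], List.Pairwise.nil⟩
  | succ n ih =>
    intro z hn hz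
    by_cases h0 : z = 0
    · exact ⟨[], by simp, by simp [h0], List.Pairwise.nil⟩
    obtain ⟨e, he⟩ : ∃ e, z e ≠ 0 := by
      by_contra hcon
      push_neg at hcon
      exact h0 (funext hcon)
    obtain ⟨c, hc, hce, hcs⟩ := exists_isMin_of_mem hz (z_ne_zero.1 he)
    have hz2 : spt (z + c) = spt z \ spt c := spt_add_of_subset hcs
    have hpos : (spt c).card ≠ 0 := by
      rw [Ne, Finset.card_eq_zero, spt_eq_empty]; exact hc.2.1
    have h3 := Finset.card_sdiff_add_card_eq_card hcs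
    obtain ⟨l, hl1, hl2, hl3⟩ := ih (z + c) (by rw [hz2]; omega) (Z.add_mem hz hc.1)
    refine ⟨c :: l, ?_, ?_, ?_⟩
    · intro d hd
      rcases List.mem_cons.1 hd with rfl | hd
      · exact ⟨hc, hcs⟩
      · exact ⟨(hl1 d hd).1, (hl1 d hd).2.trans (by rw [hz2]; exact Finset.sdiff_subset)⟩
    · rw [List.sum_cons, hl2]
      ext x
      simp only [Pi.add_apply]
      rw [add_comm (z x), ← add_assoc, z_add_self, zero_add]
    · refine List.Pairwise.cons (fun d hd => ?_) hl3
      have := (hl1 d hd).2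
      rw [hz2] at this
      rw [Finset.disjoint_left]
      intro x hx hx'
      exact (Finset.mem_sdiff.1 (this hx')).2 hx

/-! ### Complementary lists of rows -/

/-- `rows` and `duals` span orthogonal complements of each other (with a certificate). -/
def Compl {r s k : ℕ} (rows : Fin r → Fin k → ZMod 2) (duals : Fin s → Fin k → ZMod 2) : Prop :=
  (∀ i j, ∑ e, rows i e * duals j e = 0) ∧
    ∃ (L : Fin r → Fin k → ZMod 2) (U : Fin s → Fin k → ZMod 2),
      ∀ e e', (∑ i, rows i e * L i e') + (∑ j, U j e * duals j e') = if e = e' then 1 else 0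

lemma Compl.symm {r s k : ℕ} {rows : Fin r → Fin k → ZMod 2} {duals : Fin s → Fin k → ZMod 2}
    (h : Compl rows duals) : Compl duals rows := by
  obtain ⟨h1, L, U, h2⟩ := h
  refine ⟨fun i j => ?_, U, L, fun e e' => ?_⟩
  · rw [← h1 j i]
    exact Finset.sum_congr rfl (fun e _ => mul_comm _ _)
  · have h3 := h2 e' e
    rw [add_comm] at h3
    rw [show (if e = e' then (1 : ZMod 2) else 0) = if e' = e then 1 else 0 by
      by_cases h : e = e'
      · subst h; rfl
      · rw [if_neg h, if_neg (fun h' => h h'.symm)]]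
    rw [← h3]
    congr 1
    · exact Finset.sum_congr rfl (fun j _ => mul_comm _ _)
    · exact Finset.sum_congr rfl (fun j _ => mul_comm _ _)

/-- the row space is the orthogonal complement of the dual rows -/
lemma Compl.span {r s k : ℕ} {rows : Fin r → Fin k → ZMod 2} {duals : Fin s → Fin k → ZMod 2}
    (h : Compl rows duals) (g : Fin k → ZMod 2) :
    (∃ c : Fin r → ZMod 2, ∀ e, g e = ∑ i, c i * rows i e) ↔ ∀ j, ∑ e, g e * duals j e = 0 := by
  obtain ⟨h1, L, U, h2⟩ := h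
  constructor
  · rintro ⟨c, hc⟩ j
    calc ∑ e, g e * duals j e = ∑ e, ∑ i, c i * (rows i e * duals j e) := by
          refine Finset.sum_congr rfl (fun e _ => ?_)
          rw [hc e, Finset.sum_mul]
          exact Finset.sum_congr rfl (fun i _ => by ring)
      _ = ∑ i, c i * ∑ e, rows i e * duals j e := by
          rw [Finset.sum_comm]
          exact Finset.sum_congr rfl (fun i _ => by rw [Finset.mul_sum])
      _ = 0 := by simp [h1]
  · intro hg
    refine ⟨fun i => ∑ e', L i e' * g e', fun e => ?_⟩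
    have h3 : g e = ∑ e', (if e = e' then 1 else 0) * g e' := by simp
    rw [h3]
    calc ∑ e', (if e = e' then 1 else 0) * g e'
        = ∑ e', ((∑ i, rows i e * L i e') + (∑ j, U j e * duals j e')) * g e' := by
          exact Finset.sum_congr rfl (fun e' _ => by rw [h2])
      _ = (∑ e', ∑ i, rows i e * L i e' * g e') + ∑ e', ∑ j, U j e * duals j e' * g e' := by
          rw [← Finset.sum_add_distrib]
          exact Finset.sum_congr rfl (fun e' _ => by rw [add_mul, Finset.sum_mul, Finset.sum_mul])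
      _ = (∑ i, (∑ e', L i e' * g e') * rows i e) + ∑ j, U j e * ∑ e', g e' * duals j e' := by
          congr 1
          · rw [Finset.sum_comm]
            refine Finset.sum_congr rfl (fun i _ => ?_)
            rw [Finset.sum_mul]
            exact Finset.sum_congr rfl (fun e' _ => by ring)
          · rw [Finset.sum_comm]
            refine Finset.sum_congr rfl (fun j _ => ?_)
            rw [Finset.mul_sum]
            exact Finset.sum_congr rfl (fun e' _ => by ring)
      _ = ∑ i, (∑ e', L i e' * g e') * rows i e := by simp [hg]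

/-! ### `HasMinor` -/

section hasMinor

variable {r s k : ℕ} {rows : Fin r → Fin k → ZMod 2} {duals : Fin s → Fin k → ZMod 2}
  {M N : BM E}

/-- sums over a set whose relevant part is the image of `φ` -/
lemma dot_eq_sum_map {φ : Fin k → E} (hφ : Function.Injective φ) {f g : E → ZMod 2}
    (h : ∀ e, (∀ i, φ i ≠ e) → f e * g e = 0) : dot f g = ∑ i, f (φ i) * g (φ i) := by
  unfold dot
  rw [← Finset.sum_image (s := Finset.univ) (g := φ) (f := fun e => f e * g e)
    (fun a _ b _ hab => hφ hab)]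
  symm
  refine Finset.sum_subset (Finset.subset_univ _) (fun e _ he => h e (fun i hi => he ?_))
  exact Finset.mem_image.2 ⟨i, Finset.mem_univ _, hi⟩

/-- the dual of a minor -/
theorem HasMinor.dual (hc : Compl rows duals) (h : HasMinor rows M) :
    HasMinor duals M.dual := by
  obtain ⟨φ, C, hφ, hS, hC, hd, h1, h2⟩ := h
  set I : Finset E := Finset.univ.image φ with hI
  have hmI : ∀ i, φ i ∈ I := fun i => Finset.mem_image.2 ⟨i, Finset.mem_univ _, rfl⟩
  have hIm : ∀ e, e ∈ I → ∃ i, φ i = e := by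
    intro e he
    obtain ⟨i, _, hi⟩ := Finset.mem_image.1 he
    exact ⟨i, hi⟩
  refine ⟨φ, (M.S \ C) \ I, hφ, hS, ?_, ?_, ?_, ?_⟩
  · exact Finset.sdiff_subset.trans Finset.sdiff_subset
  · intro i h'
    exact (Finset.mem_sdiff.1 h').2 (hmI i)
  · intro j
    -- the vector on the image of `φ`
    let z' : E → ZMod 2 := fun e => ∑ i, if φ i = e then duals j i else 0
    have hz'φ : ∀ i, z' (φ i) = duals j i := by
      intro i
      show (∑ i', if φ i' = φ i then duals j i' else 0) = _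
      rw [Finset.sum_eq_single i]
      · simp
      · intro i' _ hne
        rw [if_neg (fun h' => hne (hφ h'))]
      · intro h'; exact absurd (Finset.mem_univ _) h'
    have hz'0 : ∀ e, e ∉ I → z' e = 0 := by
      intro e he
      refine Finset.sum_eq_zero (fun i _ => if_neg (fun h' => he ?_))
      rw [← h']; exact hmI i
    have hz'S : ∀ e, e ∉ M.S \ C → z' e = 0 := by
      intro e he
      refine hz'0 e (fun hI' => he ?_)
      obtain ⟨i, rfl⟩ := hIm e hI'
      exact Finset.mem_sdiff.2 ⟨hS i, hd i⟩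
    have hz' : z' ∈ (M.con C).Z := by
      refine ⟨hz'S, fun f hf => ?_⟩
      rw [mem_con] at hf
      rw [dot_eq_sum_map hφ (fun e he => by
        rw [hz'0 e (fun hI' => by
          obtain ⟨i, hi⟩ := hIm e hI'
          exact he i hi), mul_zero])]
      simp only [hz'φ]
      exact (hc.span _).1 (h2 f hf.1 hf.2) j
    rw [mem_Z_con'] at hz'
    obtain ⟨-, w, hw, hw2⟩ := hz'
    refine ⟨w, hw, fun e he => ?_, fun i => ?_⟩
    · rw [hw2 e (Finset.mem_sdiff.1 he).1]
      exact hz'0 e (Finset.mem_sdiff.1 he).2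
    · rw [hw2 (φ i) (Finset.mem_sdiff.2 ⟨hS i, hd i⟩), hz'φ]
  · intro z hz hz2
    rw [hc.symm.span (fun i => z (φ i))]
    intro i
    obtain ⟨f, hf, hfC, hfφ⟩ := h1 i
    have h3 := M.dot_eq_zero hf (show z ∈ M.Z from hz)
    rw [dot_eq_sum_map hφ (fun e he => by
      by_cases hS' : e ∈ M.S
      · by_cases hC' : e ∈ C
        · rw [hfC e hC', zero_mul]
        · rw [hz2 e (Finset.mem_sdiff.2 ⟨Finset.mem_sdiff.2 ⟨hS', hC'⟩, fun hI' => by
            obtain ⟨i, hi⟩ := hIm e hI'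
            exact he i hi⟩), mul_zero]
      · rw [M.supp f hf e hS', zero_mul])] at h3
    rw [← h3]
    exact Finset.sum_congr rfl (fun e _ => by rw [hfφ, mul_comm])

theorem hasMinor_dual_iff (hc : Compl rows duals) : HasMinor rows M.dual ↔ HasMinor duals M := by
  constructor
  · intro h
    have := h.dual hc
    rwa [dual_dual] at this
  · intro h
    exact h.dual hc.symm

/-- minors of minors -/
theorem HasMinor.of_minor (h : HasMinor rows N) (hNM : Minor N M) : HasMinor rows M := by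
  obtain ⟨C', D', hC', hD', hCD, rfl, hS'⟩ := hNM.normal
  obtain ⟨φ, C, hφ, hS, hC, hd, h1, h2⟩ := h
  rw [hS'] at hC
  have hS2 : ∀ i, φ i ∈ M.S ∧ φ i ∉ C' ∧ φ i ∉ D' := by
    intro i
    have := hS i
    rw [hS'] at this
    simp only [Finset.mem_sdiff, Finset.mem_union, not_or] at this
    exact this
  have hCm : ∀ e ∈ C, e ∈ M.S ∧ e ∉ C' ∧ e ∉ D' := by
    intro e he
    have := hC he
    simp only [Finset.mem_sdiff, Finset.mem_union, not_or] at this
    exact this
  have hin : ∀ e, e ∈ M.S → e ∉ C' → e ∉ D' → e ∈ (M.con C').S \ D' := by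
    intro e a b c
    simp [a, b, c]
  refine ⟨φ, C' ∪ C, hφ, fun i => (hS2 i).1,
    Finset.union_subset hC' (fun e he => (hCm e he).1), ?_, ?_, ?_⟩
  · intro i h'
    rcases Finset.mem_union.1 h' with h' | h'
    · exact (hS2 i).2.1 h'
    · exact hd i h'
  · intro i
    obtain ⟨f, hf, hfC, hfφ⟩ := h1 i
    rw [mem_del'] at hf
    obtain ⟨-, g, hg, hgf⟩ := hf
    rw [mem_con] at hg
    refine ⟨g, hg.1, fun c hc => ?_, fun j => ?_⟩
    · rcases Finset.mem_union.1 hc with hc | hc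
      · exact hg.2 c hc
      · obtain ⟨a, b, d⟩ := hCm c hc
        rw [hgf c (hin c a b d)]
        exact hfC c hc
    · obtain ⟨a, b, d⟩ := hS2 j
      rw [hgf _ (hin _ a b d)]
      exact hfφ j
  · intro f hf hfC
    have hg : mask ((M.con C').S \ D') f ∈ ((M.con C').del D').R :=
      ⟨f, ⟨hf, fun e he => hfC e (Finset.mem_union_left _ he)⟩, rfl⟩
    obtain ⟨c, hc⟩ := h2 _ hg (fun e he => by
      rw [mask_apply]
      by_cases h : e ∈ (M.con C').S \ D'
      · rw [if_pos h]; exact hfC e (Finset.mem_union_right _ he)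
      · rw [if_neg h])
    refine ⟨c, fun j => ?_⟩
    obtain ⟨a, b, d⟩ := hS2 j
    rw [← hc j, mask_apply, if_pos (hin _ a b d)]

lemma HasMinor.of_con (C : Finset E) (h : HasMinor rows (M.con C)) : HasMinor rows M :=
  h.of_minor (minor_con M C)

lemma HasMinor.of_del (D : Finset E) (h : HasMinor rows (M.del D)) : HasMinor rows M :=
  h.of_minor (minor_del M D)

lemma HasMinor.of_res (A : Finset E) (h : HasMinor rows (M.res A)) : HasMinor rows M :=
  h.of_minor (minor_res M A)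

omit [Fintype E] in
/-- an isomorphic copy is a minor -/
lemma IsIso.hasMinor (h : IsIso rows M) : HasMinor rows M := by
  obtain ⟨φ, hφ, hS, h1, h2⟩ := h
  exact ⟨φ, ∅, hφ, fun i => (hS _).2 ⟨i, rfl⟩, by simp, by simp,
    fun i => by
      obtain ⟨f, hf, hf2⟩ := h1 i
      exact ⟨f, hf, by simp, hf2⟩, fun f hf _ => h2 f hf⟩

/-- a minor given by `HasMinor` is a minor with an isomorphism -/
theorem HasMinor.exists_minor (h : HasMinor rows M) : ∃ N : BM E, Minor N M ∧ IsIso rows N := by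
  obtain ⟨φ, C, hφ, hS, hC, hd, h1, h2⟩ := h
  set I : Finset E := Finset.univ.image φ with hI
  have hmI : ∀ i, φ i ∈ I := fun i => Finset.mem_image.2 ⟨i, Finset.mem_univ _, rfl⟩
  refine ⟨(M.con C).del ((M.S \ C) \ I), ⟨C, _, rfl⟩, φ, hφ, ?_, ?_, ?_⟩
  · intro e
    constructor
    · intro he
      simp only [del_S, con_S, Finset.mem_sdiff, not_and, not_not] at he
      have := he.2 he.1
      obtain ⟨i, _, hi⟩ := Finset.mem_image.1 this
      exact ⟨i, hi⟩
    · rintro ⟨i, rfl⟩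
      simp only [del_S, con_S, Finset.mem_sdiff, not_and, not_not]
      exact ⟨⟨hS i, hd i⟩, fun _ => hmI i⟩
  · intro i
    obtain ⟨f, hf, hfC, hfφ⟩ := h1 i
    refine ⟨_, ⟨f, ⟨hf, hfC⟩, rfl⟩, fun j => ?_⟩
    rw [mask_apply, if_pos, hfφ]
    simp only [con_S, Finset.mem_sdiff, not_and, not_not]
    exact ⟨⟨hS j, hd j⟩, fun _ => hmI j⟩
  · rintro _ ⟨f, ⟨hf, hfC⟩, rfl⟩
    obtain ⟨c, hc⟩ := h2 f hf hfC
    refine ⟨c, fun j => ?_⟩
    rw [mask_apply, if_pos, hc]
    simp only [con_S, Finset.mem_sdiff, not_and, not_not]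
    exact ⟨⟨hS j, hd j⟩, fun _ => hmI j⟩

lemma hasMinor_iff_exists : HasMinor rows M ↔ ∃ N : BM E, Minor N M ∧ IsIso rows N :=
  ⟨HasMinor.exists_minor, fun ⟨_, h1, h2⟩ => h2.hasMinor.of_minor h1⟩

/-- the dual of an isomorphism -/
theorem IsIso.dual (hc : Compl rows duals) (h : IsIso rows M) : IsIso duals M.dual := by
  obtain ⟨φ, hφ, hS, h1, h2⟩ := h
  have hz0 : ∀ z ∈ M.Z, ∀ f : E → ZMod 2, ∀ e, (∀ i, φ i ≠ e) → f e * z e = 0 := by
    intro z hz f e he
    rw [M.Z_supp hz (fun h' => by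
      obtain ⟨i, hi⟩ := (hS e).1 h'
      exact he i hi), mul_zero]
  refine ⟨φ, hφ, hS, ?_, ?_⟩
  · intro j
    let z' : E → ZMod 2 := fun e => ∑ i, if φ i = e then duals j i else 0
    have hz'φ : ∀ i, z' (φ i) = duals j i := by
      intro i
      show (∑ i', if φ i' = φ i then duals j i' else 0) = _
      rw [Finset.sum_eq_single i]
      · simp
      · intro i' _ hne
        rw [if_neg (fun h' => hne (hφ h'))]
      · intro h'; exact absurd (Finset.mem_univ _) h'
    have hz'0 : ∀ e, (∀ i, φ i ≠ e) → z' e = 0 := by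
      intro e he
      exact Finset.sum_eq_zero (fun i _ => if_neg (he i))
    refine ⟨z', ⟨fun e he => hz'0 e (fun i hi => he ((hS e).2 ⟨i, hi⟩)), fun f hf => ?_⟩, hz'φ⟩
    rw [dot_eq_sum_map hφ (fun e he => by rw [hz'0 e he, mul_zero])]
    simp only [hz'φ]
    exact (hc.span _).1 (h2 f hf) j
  · intro z hz
    rw [hc.symm.span (fun i => z (φ i))]
    intro i
    obtain ⟨f, hf, hfφ⟩ := h1 i
    have h3 := M.dot_eq_zero hf (show z ∈ M.Z from hz)
    rw [dot_eq_sum_map hφ (hz0 z hz f)] at h3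
    rw [← h3]
    exact Finset.sum_congr rfl (fun e _ => by rw [hfφ, mul_comm])

theorem isIso_dual_iff (hc : Compl rows duals) : IsIso rows M.dual ↔ IsIso duals M := by
  constructor
  · intro h
    have := h.dual hc
    rwa [dual_dual] at this
  · intro h
    exact h.dual hc.symm

/-- reorder the elements of the concrete matroid -/
lemma HasMinor.perm (σ : Equiv.Perm (Fin k)) (h : HasMinor (fun i e => rows i (σ e)) M) :
    HasMinor rows M := by
  obtain ⟨φ, C, hφ, hS, hC, hd, h1, h2⟩ := h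
  refine ⟨fun e => φ (σ.symm e), C, hφ.comp σ.symm.injective, fun i => hS _, hC, fun i => hd _,
    ?_, ?_⟩
  · intro i
    obtain ⟨f, hf, hfC, hfφ⟩ := h1 i
    exact ⟨f, hf, hfC, fun j => by rw [hfφ]; simp⟩
  · intro f hf hfC
    obtain ⟨c, hc⟩ := h2 f hf hfC
    exact ⟨c, fun j => by rw [hc]; simp⟩

omit [Fintype E] in
lemma IsIso.perm (σ : Equiv.Perm (Fin k)) (h : IsIso (fun i e => rows i (σ e)) M) :
    IsIso rows M := by
  obtain ⟨φ, hφ, hS, h1, h2⟩ := h
  refine ⟨fun e => φ (σ.symm e), hφ.comp σ.symm.injective, fun e => ?_, ?_, ?_⟩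
  · rw [hS e]
    exact ⟨fun ⟨i, hi⟩ => ⟨σ i, by simpa using hi⟩, fun ⟨i, hi⟩ => ⟨_, hi⟩⟩
  · intro i
    obtain ⟨f, hf, hfφ⟩ := h1 i
    exact ⟨f, hf, fun j => by rw [hfφ]; simp⟩
  · intro f hf
    obtain ⟨c, hc⟩ := h2 f hf
    exact ⟨c, fun j => by rw [hc]; simp⟩

/-- Certificate for a minor: rows `f i` vanishing on `C` and cycles `z j` supported in
`C ∪ φ`, which restrict to `rows` and `duals`. -/
theorem hasMinor_of_cert (hc : Compl rows duals) (φ : Fin k → E) (hφ : Function.Injective φ)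
    (hS : ∀ i, φ i ∈ M.S) (C : Finset E) (hC : C ⊆ M.S) (hd : ∀ i, φ i ∉ C)
    (f : Fin r → E → ZMod 2) (hf : ∀ i, f i ∈ M.R) (hfC : ∀ i, ∀ c ∈ C, f i c = 0)
    (hfφ : ∀ i e, f i (φ e) = rows i e)
    (z : Fin s → E → ZMod 2) (hz : ∀ j, z j ∈ M.Z) (hzφ : ∀ j e, z j (φ e) = duals j e)
    (hz0 : ∀ j e, (∀ i, φ i ≠ e) → e ∉ C → z j e = 0) : HasMinor rows M := by
  refine ⟨φ, C, hφ, hS, hC, hd, fun i => ⟨f i, hf i, hfC i, hfφ i⟩, fun g hg hgC => ?_⟩
  rw [hc.span (fun e => g (φ e))]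
  intro j
  have h3 := M.dot_eq_zero hg (hz j)
  rw [dot_eq_sum_map hφ (fun e he => by
    by_cases h : e ∈ C
    · rw [hgC e h, zero_mul]
    · rw [hz0 j e he h, mul_zero])] at h3
  rw [← h3]
  exact Finset.sum_congr rfl (fun e _ => by rw [hzφ])

/-- Certificate: the matroid on `Fin k` spanned by `rows` is a minor of the matroid on `Fin k'`
spanned by `rows'`.  `φ` injects, `C` is contracted, `a i` are the coefficients of the row `i`,
`z j` are the cycles.  Everything can be checked by `decide`. -/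
def FinCert {r s k r' k' : ℕ} (rows : Fin r → Fin k → ZMod 2) (duals : Fin s → Fin k → ZMod 2)
    (rows' : Fin r' → Fin k' → ZMod 2) (φ : Fin k → Fin k') (C : Finset (Fin k'))
    (a : Fin r → Fin r' → ZMod 2) (z : Fin s → Fin k' → ZMod 2) : Prop :=
  (∀ i j, φ i = φ j → i = j) ∧ (∀ i, φ i ∉ C) ∧
    (∀ i, ∀ c ∈ C, ∑ i', a i i' * rows' i' c = 0) ∧
    (∀ i e, ∑ i', a i i' * rows' i' (φ e) = rows i e) ∧
    (∀ j i', ∑ e, rows' i' e * z j e = 0) ∧
    (∀ j e, z j (φ e) = duals j e) ∧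
    (∀ j e, z j e ≠ 0 → e ∈ C ∨ ∃ i, φ i = e)

instance {r s k r' k' : ℕ} (rows : Fin r → Fin k → ZMod 2) (duals : Fin s → Fin k → ZMod 2)
    (rows' : Fin r' → Fin k' → ZMod 2) (φ : Fin k → Fin k') (C : Finset (Fin k'))
    (a : Fin r → Fin r' → ZMod 2) (z : Fin s → Fin k' → ZMod 2) :
    Decidable (FinCert rows duals rows' φ C a z) := by
  unfold FinCert; infer_instance

/-- minors of a concrete minor -/
theorem HasMinor.of_finCert {r' k' : ℕ} {rows' : Fin r' → Fin k' → ZMod 2}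
    (h : HasMinor rows' M) (hc : Compl rows duals) {φ : Fin k → Fin k'} {C : Finset (Fin k')}
    {a : Fin r → Fin r' → ZMod 2} {z : Fin s → Fin k' → ZMod 2}
    (hcert : FinCert rows duals rows' φ C a z) : HasMinor rows M := by
  obtain ⟨g1, g2, g3, g4, g5, g6, g7⟩ := hcert
  obtain ⟨ψ, C', hψ, hS, hC', hd, h1, h2⟩ := h
  refine ⟨fun i => ψ (φ i), C' ∪ C.image ψ, fun i j hij => g1 i j (hψ hij), fun i => hS _,
    ?_, ?_, ?_, ?_⟩
  · refine Finset.union_subset hC' (fun e he => ?_)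
    obtain ⟨i, _, rfl⟩ := Finset.mem_image.1 he
    exact hS i
  · intro i h'
    rcases Finset.mem_union.1 h' with h' | h'
    · exact hd _ h'
    · obtain ⟨j, hj, hji⟩ := Finset.mem_image.1 h'
      rw [hψ hji] at hj
      exact g2 i hj
  · intro i
    choose f hf hfC hfφ using h1
    refine ⟨∑ i', a i i' • f i', Submodule.sum_mem _ (fun i' _ => M.R.smul_mem _ (hf i')),
      fun c hc => ?_, fun j => ?_⟩
    · rw [Finset.sum_apply]
      rcases Finset.mem_union.1 hc with hc | hc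
      · exact Finset.sum_eq_zero (fun i' _ => by
          rw [Pi.smul_apply, hfC i' c hc, smul_zero])
      · obtain ⟨j, hj, rfl⟩ := Finset.mem_image.1 hc
        rw [← g3 i j hj]
        exact Finset.sum_congr rfl (fun i' _ => by rw [Pi.smul_apply, hfφ, smul_eq_mul])
    · rw [Finset.sum_apply, ← g4 i j]
      exact Finset.sum_congr rfl (fun i' _ => by rw [Pi.smul_apply, hfφ, smul_eq_mul])
  · intro f hf hfC
    rw [hc.span (fun e => f (ψ (φ e)))]
    obtain ⟨c, hc'⟩ := h2 f hf (fun c hc => hfC c (Finset.mem_union_left _ hc))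
    intro j
    -- the pairing of `f ∘ ψ` with the cycle `z j`
    have h3 : ∑ e, f (ψ e) * z j e = 0 := by
      calc ∑ e, f (ψ e) * z j e = ∑ e, ∑ i, c i * (rows' i e * z j e) := by
            refine Finset.sum_congr rfl (fun e _ => ?_)
            rw [hc' e, Finset.sum_mul]
            exact Finset.sum_congr rfl (fun i _ => by ring)
        _ = ∑ i, c i * ∑ e, rows' i e * z j e := by
            rw [Finset.sum_comm]
            exact Finset.sum_congr rfl (fun i _ => by rw [Finset.mul_sum])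
        _ = 0 := by simp [g5]
    have h4 : ∑ e, f (ψ e) * z j e = ∑ i, f (ψ (φ i)) * z j (φ i) := by
      have h5 := dot_eq_sum_map (E := Fin k') (k := k) (φ := φ) (fun a b h => g1 a b h)
        (f := fun e => f (ψ e)) (g := z j) (fun e he => by
          by_cases h0 : z j e = 0
          · rw [h0, mul_zero]
          · rcases g7 j e h0 with h6 | ⟨i, hi⟩
            · rw [hfC (ψ e) (Finset.mem_union_right _ (Finset.mem_image.2 ⟨e, h6, rfl⟩)),
                zero_mul]
            · exact absurd hi (he i))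
      exact h5
    rw [h4] at h3
    rw [← h3]
    exact Finset.sum_congr rfl (fun e _ => by rw [g6])

end hasMinor

/-! ### Concrete matroids -/

lemma compl_F7 : Compl F7 F7s := by
  refine ⟨by decide, ![![1, 0, 0, 0, 0, 0, 0],
      ![0, 1, 0, 0, 0, 0, 0],
      ![0, 0, 1, 0, 0, 0, 0]],
    ![![0, 0, 0, 1, 0, 0, 0],
      ![0, 0, 0, 0, 1, 0, 0],
      ![0, 0, 0, 0, 0, 1, 0],
      ![0, 0, 0, 0, 0, 0, 1]], by decide⟩

lemma compl_K33 : Compl K33 K33s := by
  refine ⟨by decide, ![![0, 0, 1, 0, 0, 0, 0, 0, 0],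
      ![1, 0, 1, 1, 0, 0, 0, 0, 0],
      ![1, 0, 1, 0, 0, 0, 1, 0, 0],
      ![1, 0, 1, 0, 0, 0, 0, 0, 0],
      ![0, 1, 1, 0, 0, 0, 0, 0, 0],
      ![0, 0, 0, 0, 0, 0, 0, 0, 0]],
    ![![0, 0, 0, 0, 1, 0, 0, 0, 0],
      ![0, 0, 0, 0, 0, 1, 0, 0, 0],
      ![0, 0, 0, 0, 0, 0, 0, 1, 0],
      ![0, 0, 0, 0, 0, 0, 0, 0, 1]], by decide⟩

lemma compl_K5 : Compl K5 K5s := by
  refine ⟨by decide, ![![0, 0, 0, 1, 0, 0, 0, 0, 0, 0],
      ![1, 0, 0, 1, 0, 0, 0, 0, 0, 0],
      ![0, 1, 0, 1, 0, 0, 0, 0, 0, 0],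
      ![0, 0, 1, 1, 0, 0, 0, 0, 0, 0],
      ![0, 0, 0, 0, 0, 0, 0, 0, 0, 0]],
    ![![0, 0, 0, 0, 1, 0, 0, 0, 0, 0],
      ![0, 0, 0, 0, 0, 1, 0, 0, 0, 0],
      ![0, 0, 0, 0, 0, 0, 1, 0, 0, 0],
      ![0, 0, 0, 0, 0, 0, 0, 1, 0, 0],
      ![0, 0, 0, 0, 0, 0, 0, 0, 1, 0],
      ![0, 0, 0, 0, 0, 0, 0, 0, 0, 1]], by decide⟩

/-- rows spanning the cycle space of `K4` (triangles at vertex 0) -/
def K4s : Fin 3 → Fin 6 → ZMod 2 :=
  ![![1, 1, 0, 1, 0, 0],
    ![1, 0, 1, 0, 1, 0],
    ![0, 1, 1, 0, 0, 1]]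

lemma compl_K4 : Compl K4 K4s := by
  refine ⟨by decide, ![![0, 0, 1, 0, 0, 0],
      ![1, 0, 1, 0, 0, 0],
      ![0, 1, 1, 0, 0, 0],
      ![0, 0, 0, 0, 0, 0]],
    ![![0, 0, 0, 1, 0, 0],
      ![0, 0, 0, 0, 1, 0],
      ![0, 0, 0, 0, 0, 1]], by decide⟩

/-- a permutation carrying `R10` to its dual -/
def r10perm : Equiv.Perm (Fin 10) where
  toFun := ![0, 1, 3, 4, 7, 9, 8, 6, 5, 2]
  invFun := ![0, 1, 9, 2, 3, 8, 7, 4, 6, 5]
  left_inv := by decide
  right_inv := by decide

lemma compl_R10 : Compl R10 (fun i e => R10 i (r10perm e)) := by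
  refine ⟨by decide, ![![1, 0, 0, 0, 0, 0, 0, 0, 0, 0],
      ![0, 1, 0, 0, 0, 0, 0, 0, 0, 0],
      ![0, 0, 1, 0, 0, 0, 0, 0, 0, 0],
      ![0, 0, 0, 1, 0, 0, 0, 0, 0, 0],
      ![0, 0, 0, 0, 1, 0, 0, 0, 0, 0]],
    ![![0, 0, 0, 0, 0, 1, 1, 0, 0, 1],
      ![0, 0, 0, 0, 0, 1, 1, 1, 0, 0],
      ![0, 0, 0, 0, 0, 0, 0, 0, 0, 1],
      ![0, 0, 0, 0, 0, 0, 1, 1, 1, 0],
      ![0, 0, 0, 0, 0, 0, 0, 1, 1, 1]], by decide⟩

/-- a permutation carrying `R12` to its dual (exchange the two halves) -/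
def r12perm : Equiv.Perm (Fin 12) where
  toFun := ![6, 7, 8, 9, 10, 11, 0, 1, 2, 3, 4, 5]
  invFun := ![6, 7, 8, 9, 10, 11, 0, 1, 2, 3, 4, 5]
  left_inv := by decide
  right_inv := by decide

lemma compl_R12 : Compl R12 (fun i e => R12 i (r12perm e)) := by
  refine ⟨by decide, ![![1, 0, 0, 0, 0, 0, 0, 0, 0, 0, 0, 0],
      ![0, 1, 0, 0, 0, 0, 0, 0, 0, 0, 0, 0],
      ![1, 0, 0, 1, 0, 0, 0, 0, 0, 0, 0, 0],
      ![0, 1, 0, 0, 1, 0, 0, 0, 0, 0, 0, 0],
      ![0, 0, 0, 0, 0, 0, 1, 0, 0, 0, 0, 0],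
      ![0, 0, 0, 0, 0, 0, 0, 0, 0, 1, 0, 0]],
    ![![0, 0, 0, 0, 0, 0, 0, 1, 1, 0, 0, 0],
      ![0, 0, 0, 0, 0, 0, 0, 1, 0, 0, 0, 0],
      ![0, 0, 0, 0, 0, 0, 0, 1, 1, 0, 1, 1],
      ![0, 0, 0, 0, 0, 0, 0, 1, 0, 0, 1, 0],
      ![0, 0, 1, 0, 0, 0, 0, 1, 0, 0, 1, 0],
      ![0, 0, 0, 0, 0, 1, 0, 1, 0, 0, 1, 0]], by decide⟩

section concrete

variable {M N : BM E}

lemma hasMinor_F7_dual : HasMinor F7 M.dual ↔ HasMinor F7s M := hasMinor_dual_iff compl_F7
lemma hasMinor_F7s_dual : HasMinor F7s M.dual ↔ HasMinor F7 M := hasMinor_dual_iff compl_F7.symm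
lemma hasMinor_K33_dual : HasMinor K33 M.dual ↔ HasMinor K33s M := hasMinor_dual_iff compl_K33
lemma hasMinor_K33s_dual : HasMinor K33s M.dual ↔ HasMinor K33 M :=
  hasMinor_dual_iff compl_K33.symm
lemma hasMinor_K5_dual : HasMinor K5 M.dual ↔ HasMinor K5s M := hasMinor_dual_iff compl_K5
lemma hasMinor_K5s_dual : HasMinor K5s M.dual ↔ HasMinor K5 M := hasMinor_dual_iff compl_K5.symm

lemma hasMinor_R10_dual : HasMinor R10 M.dual ↔ HasMinor R10 M := by
  have key : ∀ M : BM E, HasMinor R10 M → HasMinor R10 M.dual :=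
    fun M h => (h.dual compl_R10).perm r10perm
  exact ⟨fun h => by simpa using key _ h, key M⟩

lemma hasMinor_R12_dual : HasMinor R12 M.dual ↔ HasMinor R12 M := by
  have key : ∀ M : BM E, HasMinor R12 M → HasMinor R12 M.dual :=
    fun M h => (h.dual compl_R12).perm r12perm
  exact ⟨fun h => by simpa using key _ h, key M⟩

lemma isIso_R10_dual : IsIso R10 M.dual ↔ IsIso R10 M := by
  have key : ∀ M : BM E, IsIso R10 M → IsIso R10 M.dual :=
    fun M h => (h.dual compl_R10).perm r10perm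
  exact ⟨fun h => by simpa using key _ h, key M⟩

lemma isIso_K5_dual : IsIso K5 M.dual ↔ IsIso K5s M := isIso_dual_iff compl_K5
lemma isIso_K33_dual : IsIso K33 M.dual ↔ IsIso K33s M := isIso_dual_iff compl_K33

/-! ### `NoF` -/

lemma NoF.minor (h : NoF M) (hN : Minor N M) : NoF N :=
  ⟨fun h' => h.1 (h'.of_minor hN), fun h' => h.2 (h'.of_minor hN)⟩

lemma NoF.con (h : NoF M) (C : Finset E) : NoF (M.con C) := h.minor (minor_con M C)

lemma NoF.del (h : NoF M) (D : Finset E) : NoF (M.del D) := h.minor (minor_del M D)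

lemma NoF.res (h : NoF M) (A : Finset E) : NoF (M.res A) := h.minor (minor_res M A)

lemma NoF.dual (h : NoF M) : NoF M.dual :=
  ⟨fun h' => h.2 (hasMinor_F7_dual.1 h'), fun h' => h.1 (hasMinor_F7s_dual.1 h')⟩

lemma noF_dual_iff : NoF M.dual ↔ NoF M := ⟨fun h => by simpa using h.dual, fun h => h.dual⟩

end concrete

end SEY
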