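import Pool.Agent.Helper10.Sub.Hasse

/-!
# Order of vanishing of an integer polynomial in one variable at a rational point
-/

set_option autoImplicit false

namespace Pool.Agent.Helper71.Sub

open Pool.Agent.Helper10.Sub

section uni
open Polynomial

/-- the primitive linear polynomial vanishing at `x` -/
noncomputable def lin (x : ℚ) : ℤ[X] := C (x.den : ℤ) * X - C x.num

lemma lin_coeff_zero (x : ℚ) : (lin x).coeff 0 = -x.num := by
  rw [lin, coeff_sub, coeff_C_mul, coeff_X_zero, coeff_C_zero]; ring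

lemma lin_coeff_one (x : ℚ) : (lin x).coeff 1 = x.den := by
  rw [lin, coeff_sub, coeff_C_mul, coeff_X_one, coeff_C_succ]; ring

lemma lin_isPrimitive (x : ℚ) : (lin x).IsPrimitive := by
  intro r hr
  rw [C_dvd_iff_dvd_coeff] at hr
  have h0 := hr 0
  have h1 := hr 1
  rw [lin_coeff_zero, dvd_neg] at h0
  rw [lin_coeff_one] at h1
  have h2 : IsCoprime x.num (x.den : ℤ) := by
    rw [Int.isCoprime_iff_gcd_eq_one]
    have := x.reduced
    simpa [Int.gcd, Nat.Coprime] using this
  exact h2.isUnit_of_dvd' h0 h1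

lemma lin_natDegree (x : ℚ) : (lin x).natDegree = 1 := by
  have hd : (x.den : ℤ) ≠ 0 := by exact_mod_cast x.den_nz
  rw [lin, natDegree_sub_C, natDegree_C_mul_X _ hd]

lemma lin_leadingCoeff (x : ℚ) : (lin x).leadingCoeff = x.den := by
  rw [leadingCoeff, lin_natDegree, lin_coeff_one]

lemma lin_trailingCoeff (x : ℚ) (hx : x.num ≠ 0) : (lin x).trailingCoeff = -x.num := by
  have h : (lin x).natTrailingDegree = 0 := by
    apply natTrailingDegree_eq_zero.mpr
    right
    rw [lin_coeff_zero]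
    simpa using hx
  rw [trailingCoeff, h, lin_coeff_zero]

lemma trailingCoeff_pow' (p : ℤ[X]) (k : ℕ) : (p ^ k).trailingCoeff = p.trailingCoeff ^ k := by
  induction k with
  | zero => simp [trailingCoeff]
  | succ k ih => rw [pow_succ, trailingCoeff_mul, ih, pow_succ]

lemma lin_map (x : ℚ) : (lin x).map (Int.castRingHom ℚ) = C (x.den : ℚ) * (X - C x) := by
  rw [lin, Polynomial.map_sub, Polynomial.map_mul, map_C, map_C, map_X, mul_sub, ← C_mul]
  congr 1
  simp only [eq_intCast]
  rw [mul_comm, Rat.mul_den_eq_num]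

theorem pow_lin_dvd (q : ℤ[X]) (x : ℚ) (k : ℕ) (h : (X - C x) ^ k ∣ q.map (Int.castRingHom ℚ)) :
    lin x ^ k ∣ q := by
  have hprim : (lin x ^ k).IsPrimitive := by
    induction k with
    | zero => rw [pow_zero]; exact isPrimitive_one
    | succ k ih =>
      rw [pow_succ]
      exact (ih ((pow_dvd_pow _ (Nat.le_succ k)).trans h)).mul (lin_isPrimitive x)
  have h1 : (lin x ^ k).map (Int.castRingHom ℚ) ∣ q.map (Int.castRingHom ℚ) := by
    have hd : IsUnit (C (x.den : ℚ) ^ k) := by
      apply IsUnit.pow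
      rw [isUnit_C, isUnit_iff_ne_zero]
      exact_mod_cast x.den_nz
    rw [Polynomial.map_pow, lin_map, mul_pow]
    exact (hd.mul_left_dvd).mpr h
  exact (IsPrimitive.Int.dvd_iff_map_cast_dvd_map_cast _ _ hprim).mpr h1

theorem ht_pow_le (q : ℤ[X]) (hq : q ≠ 0) (B : ℝ) (hB : ∀ n, |((q.coeff n : ℤ) : ℝ)| ≤ B) (x : ℚ)
    (hx : 1 < ht x) (k : ℕ) (h : (X - C x) ^ k ∣ q.map (Int.castRingHom ℚ)) :
    (ht x) ^ k ≤ B := by
  obtain ⟨q', rfl⟩ := pow_lin_dvd q x k h
  have hq' : q' ≠ 0 := right_ne_zero_of_mul hq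
  have hlc : (x.den : ℝ) ^ k ≤ B := by
    have h1 := hB (lin x ^ k * q').natDegree
    rw [coeff_natDegree, leadingCoeff_mul, leadingCoeff_pow, lin_leadingCoeff] at h1
    push_cast at h1
    rw [abs_mul, abs_pow, Nat.abs_cast] at h1
    have h2 : (1 : ℝ) ≤ |(q'.leadingCoeff : ℝ)| := by
      have : (1 : ℤ) ≤ |q'.leadingCoeff| := Int.one_le_abs (leadingCoeff_ne_zero.mpr hq')
      exact_mod_cast this
    calc (x.den : ℝ) ^ k ≤ (x.den : ℝ) ^ k * |(q'.leadingCoeff : ℝ)| :=
          le_mul_of_one_le_right (by positivity) h2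
      _ ≤ B := h1
  by_cases hn : x.num = 0
  · exfalso
    rw [ht, hn] at hx
    have : x = 0 := Rat.num_eq_zero.mp hn
    subst this
    simp at hx
  have htc : (x.num.natAbs : ℝ) ^ k ≤ B := by
    have h1 := hB (lin x ^ k * q').natTrailingDegree
    change |(((lin x ^ k * q').trailingCoeff : ℤ) : ℝ)| ≤ B at h1
    rw [trailingCoeff_mul, trailingCoeff_pow', lin_trailingCoeff x hn] at h1
    push_cast at h1
    rw [abs_mul, abs_pow, abs_neg] at h1
    have h2 : (1 : ℝ) ≤ |(q'.trailingCoeff : ℝ)| := by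
      have h3 : q'.trailingCoeff ≠ 0 := by rw [Ne, trailingCoeff_eq_zero]; exact hq'
      have : (1 : ℤ) ≤ |q'.trailingCoeff| := Int.one_le_abs h3
      exact_mod_cast this
    have h4 : (x.num.natAbs : ℝ) = |(x.num : ℝ)| := by
      rw [← Int.cast_abs, Int.abs_eq_natAbs]; rfl
    rw [h4]
    calc |(x.num : ℝ)| ^ k ≤ |(x.num : ℝ)| ^ k * |(q'.trailingCoeff : ℝ)| :=
          le_mul_of_one_le_right (by positivity) h2
      _ ≤ B := h1
  rw [ht]
  rcases le_total (x.num.natAbs : ℝ) (x.den : ℝ) with h | h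
  · rw [max_eq_right h]; exact hlc
  · rw [max_eq_left h]; exact htc

theorem exists_taylor_coeff (q : ℤ[X]) (hq : q ≠ 0) (B : ℝ) (hB : ∀ n, |((q.coeff n : ℤ) : ℝ)| ≤ B)
    (x : ℚ) (hx : 1 < ht x) :
    ∃ k : ℕ, (taylor x (q.map (Int.castRingHom ℚ))).coeff k ≠ 0 ∧ (ht x) ^ k ≤ B := by
  refine ⟨(q.map (Int.castRingHom ℚ)).rootMultiplicity x, ?_, ?_⟩
  · have hq2 : q.map (Int.castRingHom ℚ) ≠ 0 :=
      (Polynomial.map_ne_zero_iff (RingHom.injective_int _)).mpr hq
    rw [rootMultiplicity_eq_natTrailingDegree, ← taylor_apply]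
    change (taylor x (q.map (Int.castRingHom ℚ))).trailingCoeff ≠ 0
    rw [Ne, trailingCoeff_eq_zero]
    intro h
    exact hq2 ((taylor_injective x) (by rw [h, map_zero]))
  · exact ht_pow_le q hq B hB x hx _ (pow_rootMultiplicity_dvd _ _)

end uni

section one
open MvPolynomial

/-- a polynomial in one variable as `Polynomial` -/
noncomputable def toU {R : Type*} [CommRing R] : MvPolynomial (Fin 1) R →ₐ[R] Polynomial R :=
  aeval (fun _ => Polynomial.X)

lemma toU_coeff {R : Type*} [CommRing R] (P : MvPolynomial (Fin 1) R) (n : ℕ) :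
    (toU P).coeff n = coeff (Finsupp.single 0 n) P := by
  classical
  induction P using MvPolynomial.induction_on' with
  | monomial u a =>
    rw [toU, aeval_monomial, Finsupp.prod_fintype _ _ (by simp)]
    simp only [Finset.univ_unique, Fin.default_eq_zero, Finset.prod_singleton]
    rw [Polynomial.algebraMap_eq, Polynomial.coeff_C_mul, Polynomial.coeff_X_pow, coeff_monomial]
    have : (n = u 0) ↔ (u = Finsupp.single 0 n) := by
      constructor
      · intro h
        apply Finsupp.ext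
        intro i
        rw [Subsingleton.elim i 0, Finsupp.single_eq_same, h]
      · intro h
        rw [h, Finsupp.single_eq_same]
    by_cases h : n = u 0
    · rw [if_pos h, if_pos (this.mp h), mul_one]
    · rw [if_neg h, if_neg (fun h2 => h (this.mpr h2)), mul_zero]
  | add p q hp hq => rw [map_add, Polynomial.coeff_add, hp, hq, coeff_add]

lemma toU_shift (ξ : Fin 1 → ℚ) (P : MvPolynomial (Fin 1) ℚ) :
    toU (shift ξ P) = Polynomial.taylor (ξ 0) (toU P) := by
  induction P using MvPolynomial.induction_on with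
  | C a =>
    rw [shift_C, toU, aeval_C, Polynomial.algebraMap_eq, Polynomial.taylor_C]
  | add p q hp hq => simp only [map_add, hp, hq]
  | mul_X p i hp =>
    rw [map_mul, map_mul, hp, map_mul, shift_X, Polynomial.taylor_mul]
    congr 1
    rw [Subsingleton.elim i 0]
    simp [toU]

lemma toU_map (P : MvPolynomial (Fin 1) ℤ) :
    toU (MvPolynomial.map (Int.castRingHom ℚ) P) = (toU P).map (Int.castRingHom ℚ) := by
  ext n
  rw [toU_coeff, MvPolynomial.coeff_map, Polynomial.coeff_map, toU_coeff]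

theorem base_one (P : MvPolynomial (Fin 1) ℤ) (hP : P ≠ 0) (B : ℝ)
    (hB : ∀ e, |((P.coeff e : ℤ) : ℝ)| ≤ B) (ξ : Fin 1 → ℚ) (hξ : 1 < ht (ξ 0)) :
    ∃ k : Fin 1 →₀ ℕ, coeff k (shift ξ (MvPolynomial.map (Int.castRingHom ℚ) P)) ≠ 0 ∧
      (k 0 : ℝ) * Real.log (ht (ξ 0)) ≤ Real.log B := by
  have hq : toU P ≠ 0 := by
    obtain ⟨e, he⟩ := MvPolynomial.ne_zero_iff.mp hP
    intro h
    apply he
    have h1 := toU_coeff P (e 0)
    rw [h, Polynomial.coeff_zero] at h1
    have : Finsupp.single 0 (e 0) = e := by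
      apply Finsupp.ext
      intro i
      rw [Subsingleton.elim i 0, Finsupp.single_eq_same]
    rw [this] at h1
    exact h1.symm
  obtain ⟨k, hk, hkB⟩ := exists_taylor_coeff (toU P) hq B
    (fun n => by rw [toU_coeff]; exact hB _) (ξ 0) hξ
  refine ⟨Finsupp.single 0 k, ?_, ?_⟩
  · rw [← toU_map, ← toU_shift, toU_coeff] at hk
    exact hk
  · rw [Finsupp.single_eq_same, ← Real.log_pow]
    exact Real.log_le_log (by positivity) hkB

end one

end Pool.Agent.Helper71.Sub
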