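import Pool.Agent.Helper10.Sub.Hasse

/-!
# Polynomials in separate variables
-/

set_option autoImplicit false

namespace Pool.Agent.Helper71.Sub

open MvPolynomial Pool.Agent.Helper10.Sub Module

section mix
variable {σ τ : Type*} {R : Type*} [CommRing R]

/-- combination of two exponent vectors -/
noncomputable def cmb (e : σ →₀ ℕ) (κ : τ →₀ ℕ) : (σ ⊕ τ) →₀ ℕ := Finsupp.sumElim e κ

/-- first part of an exponent vector -/
noncomputable def p1 (m : (σ ⊕ τ) →₀ ℕ) : σ →₀ ℕ :=
  m.comapDomain Sum.inl Sum.inl_injective.injOn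

/-- second part of an exponent vector -/
noncomputable def p2 (m : (σ ⊕ τ) →₀ ℕ) : τ →₀ ℕ :=
  m.comapDomain Sum.inr Sum.inr_injective.injOn

@[simp] lemma cmb_inl (e : σ →₀ ℕ) (κ : τ →₀ ℕ) (i : σ) : cmb e κ (Sum.inl i) = e i := rfl
@[simp] lemma cmb_inr (e : σ →₀ ℕ) (κ : τ →₀ ℕ) (i : τ) : cmb e κ (Sum.inr i) = κ i := rfl
@[simp] lemma p1_apply (m : (σ ⊕ τ) →₀ ℕ) (i : σ) : p1 m i = m (Sum.inl i) := rfl
@[simp] lemma p2_apply (m : (σ ⊕ τ) →₀ ℕ) (i : τ) : p2 m i = m (Sum.inr i) := rfl

@[simp] lemma p1_cmb (e : σ →₀ ℕ) (κ : τ →₀ ℕ) : p1 (cmb e κ) = e := by ext i; simp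
@[simp] lemma p2_cmb (e : σ →₀ ℕ) (κ : τ →₀ ℕ) : p2 (cmb e κ) = κ := by ext i; simp
@[simp] lemma cmb_p (m : (σ ⊕ τ) →₀ ℕ) : cmb (p1 m) (p2 m) = m := by
  ext i; cases i <;> simp

lemma cmb_add (e e' : σ →₀ ℕ) (κ κ' : τ →₀ ℕ) : cmb (e + e') (κ + κ') = cmb e κ + cmb e' κ' := by
  ext i; cases i <;> simp

lemma cmb_inj {e e' : σ →₀ ℕ} {κ κ' : τ →₀ ℕ} (h : cmb e κ = cmb e' κ') : e = e' ∧ κ = κ' := by
  constructor
  · rw [← p1_cmb e κ, h, p1_cmb]
  · rw [← p2_cmb e κ, h, p2_cmb]

lemma cmb_eq (e : σ →₀ ℕ) (κ : τ →₀ ℕ) :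
    cmb e κ = e.mapDomain Sum.inl + κ.mapDomain Sum.inr := by
  ext i
  cases i with
  | inl i =>
    rw [Finsupp.add_apply, Finsupp.mapDomain_apply Sum.inl_injective, Finsupp.mapDomain_of_notMem_range]
    · simp
    · simp
  | inr i =>
    rw [Finsupp.add_apply, Finsupp.mapDomain_apply Sum.inr_injective, Finsupp.mapDomain_of_notMem_range]
    · simp
    · simp

/-- product of polynomials in separate variables, as a bilinear map -/
noncomputable def mix : MvPolynomial σ R →ₗ[R] MvPolynomial τ R →ₗ[R] MvPolynomial (σ ⊕ τ) R :=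
  (LinearMap.mul R (MvPolynomial (σ ⊕ τ) R)).compl₁₂
    (rename Sum.inl : MvPolynomial σ R →ₐ[R] _).toLinearMap
    (rename Sum.inr : MvPolynomial τ R →ₐ[R] _).toLinearMap

lemma mix_apply (f : MvPolynomial σ R) (g : MvPolynomial τ R) :
    mix f g = rename Sum.inl f * rename Sum.inr g := rfl

lemma mix_monomial (e : σ →₀ ℕ) (κ : τ →₀ ℕ) (a b : R) :
    mix (monomial e a) (monomial κ b) = monomial (cmb e κ) (a * b) := by
  rw [mix_apply, rename_monomial, rename_monomial, monomial_mul, ← cmb_eq]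

theorem coeff_mix (e : σ →₀ ℕ) (κ : τ →₀ ℕ) (f : MvPolynomial σ R) (g : MvPolynomial τ R) :
    coeff (cmb e κ) (mix f g) = coeff e f * coeff κ g := by
  classical
  induction f using MvPolynomial.induction_on' with
  | monomial u a =>
    induction g using MvPolynomial.induction_on' with
    | monomial v b =>
      rw [mix_monomial, coeff_monomial, coeff_monomial, coeff_monomial]
      by_cases h1 : u = e
      · by_cases h2 : v = κ
        · rw [if_pos h1, if_pos h2, if_pos (by rw [h1, h2])]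
        · rw [if_neg h2, mul_zero, if_neg]
          intro h; exact h2 (cmb_inj h).2
      · rw [if_neg h1, zero_mul, if_neg]
        intro h; exact h1 (cmb_inj h).1
    | add p q hp hq => rw [map_add, coeff_add, hp, hq, coeff_add, mul_add]
  | add p q hp hq => rw [map_add, LinearMap.add_apply, coeff_add, hp, hq, coeff_add, add_mul]

theorem coeff_mix' (m : (σ ⊕ τ) →₀ ℕ) (f : MvPolynomial σ R) (g : MvPolynomial τ R) :
    coeff m (mix f g) = coeff (p1 m) f * coeff (p2 m) g := by
  conv_lhs => rw [← cmb_p m]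
  exact coeff_mix _ _ _ _

theorem hd_mix [Fintype σ] [Fintype τ] (K : σ →₀ ℕ) (ν : τ →₀ ℕ) (f : MvPolynomial σ R)
    (g : MvPolynomial τ R) : hd (cmb K ν) (mix f g) = mix (hd K f) (hd ν g) := by
  ext m
  obtain ⟨a, b, rfl⟩ : ∃ a b, cmb a b = m := ⟨p1 m, p2 m, cmb_p m⟩
  rw [coeff_hd, ← cmb_add, coeff_mix, coeff_mix, coeff_hd, coeff_hd, Fintype.prod_sum_type]
  simp only [cmb_inl, cmb_inr]
  push_cast
  ring

theorem shift_rename {α β : Type*} (φ : α → β) (ζ : β → R) (f : MvPolynomial α R) :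
    shift ζ (rename φ f) = rename φ (shift (fun i => ζ (φ i)) f) := by
  induction f using MvPolynomial.induction_on with
  | C a => simp
  | add p q hp hq => simp only [map_add, hp, hq]
  | mul_X p i hp => simp only [map_mul, hp, rename_X, shift_X, map_add, rename_C]

theorem shift_mix (ζ : σ ⊕ τ → R) (f : MvPolynomial σ R) (g : MvPolynomial τ R) :
    shift ζ (mix f g) = mix (shift (fun i => ζ (Sum.inl i)) f) (shift (fun i => ζ (Sum.inr i)) g) := by
  rw [mix_apply, map_mul, shift_rename, shift_rename, mix_apply]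

/-- the polynomial in the first group of variables which is the coefficient of `y ^ κ` -/
noncomputable def sl2 (κ : τ →₀ ℕ) (P : MvPolynomial (σ ⊕ τ) R) : MvPolynomial σ R :=
  open scoped Classical in
  ∑ m ∈ P.support, if p2 m = κ then monomial (p1 m) (coeff m P) else 0

/-- the polynomial in the second group of variables which is the coefficient of `x ^ e` -/
noncomputable def sl1 (e : σ →₀ ℕ) (P : MvPolynomial (σ ⊕ τ) R) : MvPolynomial τ R :=
  open scoped Classical in
  ∑ m ∈ P.support, if p1 m = e then monomial (p2 m) (coeff m P) else 0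

theorem coeff_sl2 (κ : τ →₀ ℕ) (e : σ →₀ ℕ) (P : MvPolynomial (σ ⊕ τ) R) :
    coeff e (sl2 κ P) = coeff (cmb e κ) P := by
  classical
  rw [sl2, coeff_sum]
  by_cases h : cmb e κ ∈ P.support
  · rw [Finset.sum_eq_single (cmb e κ)]
    · rw [p2_cmb, p1_cmb, if_pos rfl, coeff_monomial, if_pos rfl]
    · intro m _ hm
      split_ifs with h2
      · rw [coeff_monomial, if_neg]
        intro h3
        apply hm
        rw [← cmb_p m, h2, h3]
      · exact coeff_zero _
    · intro h2; exact absurd h h2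
  · rw [notMem_support_iff.mp h]
    apply Finset.sum_eq_zero
    intro m hm
    split_ifs with h2
    · rw [coeff_monomial, if_neg]
      intro h3
      apply h
      rw [← h2, ← h3, cmb_p]
      exact hm
    · exact coeff_zero _

theorem coeff_sl1 (κ : τ →₀ ℕ) (e : σ →₀ ℕ) (P : MvPolynomial (σ ⊕ τ) R) :
    coeff κ (sl1 e P) = coeff (cmb e κ) P := by
  classical
  rw [sl1, coeff_sum]
  by_cases h : cmb e κ ∈ P.support
  · rw [Finset.sum_eq_single (cmb e κ)]
    · rw [p2_cmb, p1_cmb, if_pos rfl, coeff_monomial, if_pos rfl]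
    · intro m _ hm
      split_ifs with h2
      · rw [coeff_monomial, if_neg]
        intro h3
        apply hm
        rw [← cmb_p m, h2, h3]
      · exact coeff_zero _
    · intro h2; exact absurd h h2
  · rw [notMem_support_iff.mp h]
    apply Finset.sum_eq_zero
    intro m hm
    split_ifs with h2
    · rw [coeff_monomial, if_neg]
      intro h3
      apply h
      rw [← h2, ← h3, cmb_p]
      exact hm
    · exact coeff_zero _

theorem eq_sum_mix (P : MvPolynomial (σ ⊕ τ) R) (S : Finset (τ →₀ ℕ))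
    (hS : ∀ m, coeff m P ≠ 0 → p2 m ∈ S) :
    P = ∑ κ ∈ S, mix (sl2 κ P) (monomial κ 1) := by
  classical
  ext m
  rw [coeff_sum]
  have h1 : ∀ κ ∈ S, coeff m (mix (sl2 κ P) (monomial κ 1)) =
      if κ = p2 m then coeff m P else 0 := by
    intro κ _
    rw [coeff_mix', coeff_sl2, coeff_monomial]
    split_ifs with h
    · rw [h, cmb_p, mul_one]
    · rw [mul_zero]
  rw [Finset.sum_congr rfl h1, Finset.sum_ite_eq']
  split_ifs with h
  · rfl
  · by_contra h2
    exact h (hS m h2)

end mix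

section decomp
variable {σ τ : Type*}

theorem exists_decomp (P : MvPolynomial (σ ⊕ τ) ℚ) (hP : P ≠ 0) (S : Finset (τ →₀ ℕ))
    (hS : ∀ m, coeff m P ≠ 0 → p2 m ∈ S) :
    ∃ (n : ℕ) (f : Fin n → MvPolynomial σ ℚ) (g : Fin n → MvPolynomial τ ℚ), 0 < n ∧
      n ≤ S.card ∧ LinearIndependent ℚ f ∧ LinearIndependent ℚ g ∧ P = ∑ j, mix (f j) (g j) := by
  classical
  set V : Submodule ℚ (MvPolynomial σ ℚ) :=
    Submodule.span ℚ ((S.image fun κ => sl2 κ P : Finset (MvPolynomial σ ℚ)) : Set _) with hV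
  have hmem : ∀ κ ∈ S, sl2 κ P ∈ V := fun κ hκ =>
    Submodule.subset_span (by simpa using ⟨κ, hκ, rfl⟩)
  have hfin : FiniteDimensional ℚ V := FiniteDimensional.span_finset ℚ _
  set b := Module.finBasis ℚ V with hb
  set n := finrank ℚ V with hn
  -- coordinates
  set a : (τ →₀ ℕ) → Fin n → ℚ := fun κ j =>
    if h : κ ∈ S then b.repr ⟨sl2 κ P, hmem κ h⟩ j else 0 with ha
  have hsl : ∀ κ ∈ S, sl2 κ P = ∑ j, a κ j • (b j : MvPolynomial σ ℚ) := by
    intro κ hκ
    have h1 := b.sum_repr ⟨sl2 κ P, hmem κ hκ⟩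
    have h2 := congrArg (Submodule.subtype V) h1
    simp only [map_sum, map_smul, Submodule.subtype_apply] at h2
    rw [← h2]
    apply Finset.sum_congr rfl
    intro j _
    simp [ha, hκ]
  set g : Fin n → MvPolynomial τ ℚ := fun j => ∑ κ ∈ S, a κ j • monomial κ 1 with hg
  refine ⟨n, fun j => b j, g, ?_, ?_, ?_, ?_, ?_⟩
  · rw [hn, Module.finrank_pos_iff]
    by_contra hcon
    rw [not_nontrivial_iff_subsingleton] at hcon
    apply hP
    rw [eq_sum_mix P S hS]
    apply Finset.sum_eq_zero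
    intro κ hκ
    have h1 : (⟨sl2 κ P, hmem κ hκ⟩ : V) = 0 := Subsingleton.elim _ _
    have h2 : sl2 κ P = 0 := congrArg Subtype.val h1
    rw [h2, map_zero, LinearMap.zero_apply]
  · exact (finrank_span_finset_le_card _).trans Finset.card_image_le
  · exact b.linearIndependent.map' V.subtype (Submodule.ker_subtype V)
  · rw [Fintype.linearIndependent_iff]
    intro c hc
    have h1 : ∀ κ ∈ S, ∑ j, c j * a κ j = 0 := by
      intro κ hκ
      have h2 := congrArg (coeff κ) hc
      rw [coeff_sum, coeff_zero] at h2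
      rw [← h2]
      apply Finset.sum_congr rfl
      intro j _
      rw [coeff_smul, hg, coeff_sum, Finset.sum_eq_single κ]
      · simp
      · intro κ' _ hne
        rw [coeff_smul, coeff_monomial, if_neg hne, smul_zero]
      · intro h; exact absurd hκ h
    set φ : V →ₗ[ℚ] ℚ := ∑ j, c j • b.coord j with hφ
    have hφ0 : ∀ v : V, φ v = 0 := by
      rintro ⟨v, hv⟩
      induction hv using Submodule.span_induction with
      | mem x hx =>
        rw [Finset.mem_coe, Finset.mem_image] at hx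
        obtain ⟨κ, hκ, rfl⟩ := hx
        rw [← h1 κ hκ, hφ, LinearMap.sum_apply]
        apply Finset.sum_congr rfl
        intro j _
        simp [ha, hκ, Basis.coord_apply]
      | zero => exact map_zero φ
      | add x y hx hy hx' hy' =>
        have : (⟨x + y, Submodule.add_mem _ hx hy⟩ : V) = ⟨x, hx⟩ + ⟨y, hy⟩ := rfl
        rw [this, map_add, hx', hy', add_zero]
      | smul r x hx hx' =>
        have : (⟨r • x, Submodule.smul_mem _ r hx⟩ : V) = r • ⟨x, hx⟩ := rfl
        rw [this, map_smul, hx', smul_zero]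
    intro j
    have := hφ0 (b j)
    rw [hφ, LinearMap.sum_apply, Finset.sum_eq_single j] at this
    · simpa [Basis.coord_apply] using this
    · intro i _ hi
      simp [Basis.coord_apply, Ne.symm hi]
    · simp
  · conv_lhs => rw [eq_sum_mix P S hS]
    have h1 : ∀ κ ∈ S, mix (sl2 κ P) (monomial κ (1 : ℚ)) =
        ∑ j, a κ j • mix (b j : MvPolynomial σ ℚ) (monomial κ (1 : ℚ)) := by
      intro κ hκ
      conv_lhs => rw [hsl κ hκ, map_sum, LinearMap.sum_apply]
      apply Finset.sum_congr rfl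
      intro j _
      rw [map_smul, LinearMap.smul_apply]
    rw [Finset.sum_congr rfl h1, Finset.sum_comm]
    apply Finset.sum_congr rfl
    intro j _
    rw [hg, map_sum]
    apply Finset.sum_congr rfl
    intro κ _
    rw [map_smul]

end decomp

end Pool.Agent.Helper71.Sub
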