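import Pool.Agent.Helper71.SubWron
import Pool.Agent.Helper71.SubMix
import Pool.Agent.Helper71.SubBase

/-!
# Roth's lemma
-/

set_option autoImplicit false

namespace Pool.Agent.Helper71.Sub

open MvPolynomial Pool.Agent.Helper10.Sub

/-! ### Majorants -/

section maj
variable {σ : Type*}

/-- the coefficients of `P` are bounded by those of `M` -/
def Maj (P : MvPolynomial σ ℤ) (M : MvPolynomial σ ℝ) : Prop :=
  ∀ e, |((coeff e P : ℤ) : ℝ)| ≤ coeff e M

lemma Maj.nonneg {P : MvPolynomial σ ℤ} {M : MvPolynomial σ ℝ} (h : Maj P M) (e : σ →₀ ℕ) :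
    0 ≤ coeff e M := (abs_nonneg _).trans (h e)

lemma Maj.add {P Q : MvPolynomial σ ℤ} {M N : MvPolynomial σ ℝ} (h1 : Maj P M) (h2 : Maj Q N) :
    Maj (P + Q) (M + N) := by
  intro e
  rw [coeff_add, coeff_add]
  push_cast
  exact (abs_add_le _ _).trans (add_le_add (h1 e) (h2 e))

lemma Maj.zero : Maj (0 : MvPolynomial σ ℤ) 0 := by
  intro e; simp

lemma Maj.one : Maj (1 : MvPolynomial σ ℤ) 1 := by
  classical
  intro e
  rw [coeff_one, coeff_one]
  split_ifs <;> simp

lemma Maj.mul {P Q : MvPolynomial σ ℤ} {M N : MvPolynomial σ ℝ} (h1 : Maj P M) (h2 : Maj Q N) :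
    Maj (P * Q) (M * N) := by
  classical
  intro e
  rw [coeff_mul, coeff_mul]
  push_cast
  refine (Finset.abs_sum_le_sum_abs _ _).trans (Finset.sum_le_sum fun x _ => ?_)
  rw [abs_mul]
  exact mul_le_mul (h1 _) (h2 _) (abs_nonneg _) (h1.nonneg _)

lemma Maj.neg {P : MvPolynomial σ ℤ} {M : MvPolynomial σ ℝ} (h : Maj P M) : Maj (-P) M := by
  intro e
  rw [coeff_neg]
  push_cast
  rw [abs_neg]
  exact h e

lemma Maj.sum {α : Type*} (s : Finset α) (P : α → MvPolynomial σ ℤ) (M : α → MvPolynomial σ ℝ)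
    (h : ∀ a ∈ s, Maj (P a) (M a)) : Maj (∑ a ∈ s, P a) (∑ a ∈ s, M a) := by
  classical
  induction s using Finset.induction_on with
  | empty => simpa using Maj.zero
  | insert a s ha ih =>
    rw [Finset.sum_insert ha, Finset.sum_insert ha]
    exact (h a (Finset.mem_insert_self _ _)).add (ih fun b hb => h b (Finset.mem_insert_of_mem hb))

lemma Maj.prod {α : Type*} (s : Finset α) (P : α → MvPolynomial σ ℤ) (M : α → MvPolynomial σ ℝ)
    (h : ∀ a ∈ s, Maj (P a) (M a)) : Maj (∏ a ∈ s, P a) (∏ a ∈ s, M a) := by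
  classical
  induction s using Finset.induction_on with
  | empty => simpa using Maj.one
  | insert a s ha ih =>
    rw [Finset.prod_insert ha, Finset.prod_insert ha]
    exact (h a (Finset.mem_insert_self _ _)).mul (ih fun b hb => h b (Finset.mem_insert_of_mem hb))

lemma Maj.det {n : ℕ} (A : Matrix (Fin n) (Fin n) (MvPolynomial σ ℤ)) (M : MvPolynomial σ ℝ)
    (h : ∀ i j, Maj (A i j) M) : Maj A.det ((n.factorial : MvPolynomial σ ℝ) * M ^ n) := by
  rw [Matrix.det_apply]
  have h1 : (n.factorial : MvPolynomial σ ℝ) * M ^ n =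
      ∑ _π : Equiv.Perm (Fin n), ∏ _i : Fin n, M := by
    rw [Finset.sum_const, Finset.prod_const, Finset.card_univ, Finset.card_univ, Fintype.card_perm,
      Fintype.card_fin, nsmul_eq_mul]
  rw [h1]
  apply Maj.sum
  intro π _
  have h2 : Maj (∏ i, A (π i) i) (∏ _i : Fin n, M) := Maj.prod _ _ _ fun i _ => h _ _
  rcases Int.units_eq_one_or (Equiv.Perm.sign π) with h3 | h3
  · rw [h3, one_smul]; exact h2
  · rw [h3, Units.neg_smul, one_smul]; exact h2.neg

lemma Maj.coeff_le_eval {P : MvPolynomial σ ℤ} {M : MvPolynomial σ ℝ} (h : Maj P M) (e : σ →₀ ℕ) :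
    |((coeff e P : ℤ) : ℝ)| ≤ eval (fun _ => (1 : ℝ)) M := by
  classical
  have h1 : eval (fun _ => (1 : ℝ)) M = ∑ d ∈ M.support, coeff d M := by
    rw [eval_eq]
    apply Finset.sum_congr rfl
    intro d _
    simp
  rw [h1]
  refine (h e).trans ?_
  by_cases he : e ∈ M.support
  · exact Finset.single_le_sum (fun d _ => h.nonneg d) he
  · rw [notMem_support_iff.mp he]
    exact Finset.sum_nonneg fun d _ => h.nonneg d

end maj

section box
variable {σ : Type*} [Fintype σ]

/-- the polynomial all of whose coefficients in the box `≤ r` are equal to one -/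
noncomputable def box (r : σ → ℕ) : MvPolynomial σ ℝ :=
  open scoped Classical in
  ∑ e ∈ Finset.Iic (Finsupp.equivFunOnFinite.symm r), monomial e (1 : ℝ)

lemma coeff_box (r : σ → ℕ) (e : σ →₀ ℕ) :
    coeff e (box r) = open scoped Classical in if (∀ h, e h ≤ r h) then 1 else 0 := by
  classical
  rw [box, coeff_sum]
  simp only [coeff_monomial]
  rw [Finset.sum_ite_eq']
  congr 1
  rw [Finset.mem_Iic, eq_iff_iff]
  exact Iff.rfl

lemma eval_box_le (r : σ → ℕ) : eval (fun _ => (1 : ℝ)) (box r) ≤ 2 ^ (∑ h, r h) := by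
  classical
  rw [box, map_sum]
  simp only [eval_monomial, one_pow, Finsupp.prod, Finset.prod_const_one, mul_one,
    Finset.sum_const, nsmul_eq_mul]
  have h1 : (Finset.Iic (Finsupp.equivFunOnFinite.symm r)).card ≤ 2 ^ (∑ h, r h) := by
    rw [Finsupp.card_Iic, ← Finset.prod_pow_eq_pow_sum]
    have h2 : ∏ i ∈ (Finsupp.equivFunOnFinite.symm r).support,
        (Finset.Iic ((Finsupp.equivFunOnFinite.symm r) i)).card ≤ ∏ i : σ, (r i + 1) := by
      rw [Finset.prod_subset (Finset.subset_univ _)]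
      · apply Finset.prod_le_prod'
        intro i _
        simp
      · intro i _ hi
        rw [Finsupp.notMem_support_iff] at hi
        rw [hi]
        rfl
    refine h2.trans (Finset.prod_le_prod' fun i _ => ?_)
    exact Nat.succ_le_of_lt (Nat.lt_two_pow_self)
  exact_mod_cast h1

lemma maj_hd (P : MvPolynomial σ ℤ) (r : σ → ℕ) (hr : ∀ e, coeff e P ≠ 0 → ∀ h, e h ≤ r h)
    (B : ℝ) (hB0 : 0 ≤ B) (hB : ∀ e, |((coeff e P : ℤ) : ℝ)| ≤ B) (k : σ →₀ ℕ) :
    Maj (hd k P) (C (B * 2 ^ (∑ h, r h)) * box r) := by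
  classical
  intro e
  rw [coeff_hd, coeff_C_mul, coeff_box]
  by_cases hz : coeff (e + k) P = 0
  · rw [hz, zero_mul]
    simp only [Int.cast_zero, abs_zero]
    split_ifs <;> positivity
  · have h1 := hr _ hz
    rw [if_pos fun h => (Nat.le_add_right _ _).trans (h1 h), mul_one]
    push_cast
    rw [abs_mul]
    apply mul_le_mul (hB _) _ (abs_nonneg _) hB0
    have h2 := prod_choose_le (e + k) k
    have h3 : (2 : ℕ) ^ (∑ i, (e + k) i) ≤ 2 ^ (∑ h, r h) :=
      Nat.pow_le_pow_right (by norm_num) (Finset.sum_le_sum fun i _ => h1 i)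
    have h4 : ((∏ i, ((e + k) i).choose (k i) : ℕ) : ℝ) ≤ ((2 ^ (∑ h, r h) : ℕ) : ℝ) := by
      exact_mod_cast h2.trans h3
    rw [abs_of_nonneg (by positivity)]
    push_cast at h4
    exact h4

lemma degree_box_pow (r : σ → ℕ) (a : ℝ) (n : ℕ) (e : σ →₀ ℕ)
    (he : coeff e ((n.factorial : MvPolynomial σ ℝ) * (C a * box r) ^ n) ≠ 0) (h : σ) :
    e h ≤ n * r h := by
  classical
  have h1 : e ∈ ((n.factorial : MvPolynomial σ ℝ) * (C a * box r) ^ n).support :=
    MvPolynomial.mem_support_iff.mpr he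
  have h2 := monomial_le_degreeOf h h1
  refine h2.trans ((degreeOf_mul_le _ _ _).trans ?_)
  have h3 : degreeOf h (n.factorial : MvPolynomial σ ℝ) = 0 := by
    rw [← map_natCast (C : ℝ →+* MvPolynomial σ ℝ)]
    exact degreeOf_C _ _
  rw [h3, zero_add]
  refine (degreeOf_pow_le _ _ _).trans ?_
  apply Nat.mul_le_mul_left
  refine (degreeOf_mul_le _ _ _).trans ?_
  rw [degreeOf_C, zero_add, degreeOf_le_iff]
  intro d hd
  rw [MvPolynomial.mem_support_iff, coeff_box] at hd
  by_contra hcon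
  apply hd
  rw [if_neg]
  intro h4
  exact hcon (h4 h)

end box

/-! ### Index -/

section index
variable {σ : Type*} [Fintype σ]

/-- weight of an exponent vector -/
noncomputable def wg (r : σ → ℕ) (k : σ →₀ ℕ) : ℝ := ∑ h, (k h : ℝ) / (r h : ℝ)

lemma wg_add (r : σ → ℕ) (k l : σ →₀ ℕ) : wg r (k + l) = wg r k + wg r l := by
  unfold wg
  rw [← Finset.sum_add_distrib]
  apply Finset.sum_congr rfl
  intro h _
  rw [Finsupp.add_apply]
  push_cast
  ring

lemma wg_nonneg (r : σ → ℕ) (k : σ →₀ ℕ) : 0 ≤ wg r k :=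
  Finset.sum_nonneg fun h _ => by positivity

lemma wg_zero (r : σ → ℕ) : wg r 0 = 0 := by simp [wg]

/-- all exponents of `Q` have weight at least `α` -/
def Ge (r : σ → ℕ) (α : ℝ) (Q : MvPolynomial σ ℚ) : Prop := ∀ k, coeff k Q ≠ 0 → α ≤ wg r k

lemma Ge.mul {r : σ → ℕ} {α β : ℝ} {P Q : MvPolynomial σ ℚ} (h1 : Ge r α P) (h2 : Ge r β Q) :
    Ge r (α + β) (P * Q) := by
  classical
  intro k hk
  rw [coeff_mul] at hk
  obtain ⟨x, hx, hne⟩ := Finset.exists_ne_zero_of_sum_ne_zero hk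
  rw [Finset.HasAntidiagonal.mem_antidiagonal] at hx
  rw [← hx, wg_add]
  exact add_le_add (h1 _ (left_ne_zero_of_mul hne)) (h2 _ (right_ne_zero_of_mul hne))

lemma Ge.prod {r : σ → ℕ} {ι : Type*} (s : Finset ι) (α : ι → ℝ) (P : ι → MvPolynomial σ ℚ)
    (h : ∀ i ∈ s, Ge r (α i) (P i)) : Ge r (∑ i ∈ s, α i) (∏ i ∈ s, P i) := by
  classical
  induction s using Finset.induction_on with
  | empty =>
    intro k hk
    rw [Finset.prod_empty, coeff_one] at hk
    rw [Finset.sum_empty]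
    exact wg_nonneg r k
  | insert a s ha ih =>
    rw [Finset.sum_insert ha, Finset.prod_insert ha]
    exact (h a (Finset.mem_insert_self _ _)).mul (ih fun b hb => h b (Finset.mem_insert_of_mem hb))

lemma Ge.det {r : σ → ℕ} {n : ℕ} (α : Fin n → ℝ) (A : Matrix (Fin n) (Fin n) (MvPolynomial σ ℚ))
    (h : ∀ i l, Ge r (α l) (A i l)) : Ge r (∑ l, α l) A.det := by
  classical
  intro k hk
  rw [Matrix.det_apply, coeff_sum] at hk
  obtain ⟨π, _, hne⟩ := Finset.exists_ne_zero_of_sum_ne_zero hk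
  have h1 : coeff k (∏ i, A (π i) i) ≠ 0 := by
    intro hz
    apply hne
    rcases Int.units_eq_one_or (Equiv.Perm.sign π) with h3 | h3
    · rw [h3, one_smul, hz]
    · rw [h3, Units.neg_smul, one_smul, coeff_neg, hz, neg_zero]
  exact Ge.prod Finset.univ α (fun i => A (π i) i) (fun i _ => h _ _) k h1

lemma Ge.hd {r : σ → ℕ} {ε : ℝ} {Q : MvPolynomial σ ℚ} (h : ∀ k, coeff k Q ≠ 0 → ε < wg r k)
    (k : σ →₀ ℕ) (α : ℝ) (hα : α ≤ max 0 (ε - wg r k)) : Ge r α (hd k Q) := by
  intro m hm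
  rw [coeff_hd] at hm
  have h1 := h _ (left_ne_zero_of_mul hm)
  rw [wg_add] at h1
  refine hα.trans (max_le (wg_nonneg r m) (by linarith))

end index

lemma sum_lower (n ρ : ℕ) (hnρ : n ≤ ρ + 1) (hρ : 1 ≤ ρ) (θ : ℝ) (h0 : 0 < θ)
    (h1 : θ ≤ 1) : n * θ ^ 2 / 8 ≤ ∑ l : Fin n, max 0 (θ - (l : ℝ) / ρ) := by
  rw [Fin.sum_univ_eq_sum_range (fun l : ℕ => max 0 (θ - (l : ℝ) / ρ)) n]
  have hρ' : (0 : ℝ) < ρ := by exact_mod_cast hρ
  set m : ℕ := min n (⌊θ * ρ / 2⌋₊ + 1) with hm
  have hmn : m ≤ n := min_le_left _ _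
  have hmR : θ * n / 4 ≤ (m : ℝ) := by
    have hn0 : (0 : ℝ) ≤ n := Nat.cast_nonneg n
    have hn2 : (n : ℝ) ≤ 2 * ρ := by
      have : n ≤ 2 * ρ := by omega
      exact_mod_cast this
    rw [hm, Nat.cast_min]
    apply le_min
    · nlinarith
    · have h2 := (Nat.lt_floor_add_one (θ * ρ / 2)).le
      push_cast
      refine le_trans ?_ h2
      nlinarith
  have h2 : ∑ l ∈ Finset.range m, max 0 (θ - (l : ℝ) / ρ) ≤
      ∑ l ∈ Finset.range n, max 0 (θ - (l : ℝ) / ρ) := by
    apply Finset.sum_le_sum_of_subset_of_nonneg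
    · exact Finset.range_subset_range.mpr hmn
    · intro i _ _
      exact le_max_left _ _
  have h3 : ∑ _l ∈ Finset.range m, (θ / 2) ≤ ∑ l ∈ Finset.range m, max 0 (θ - (l : ℝ) / ρ) := by
    apply Finset.sum_le_sum
    intro l hl
    rw [Finset.mem_range] at hl
    have h4 : l ≤ ⌊θ * ρ / 2⌋₊ := by omega
    have h5 : (l : ℝ) ≤ θ * ρ / 2 := (Nat.cast_le.mpr h4).trans (Nat.floor_le (by positivity))
    refine le_trans ?_ (le_max_right _ _)
    rw [le_sub_iff_add_le]
    have : (l : ℝ) / ρ ≤ θ / 2 := by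
      rw [div_le_iff₀ hρ']
      linarith
    linarith
  rw [Finset.sum_const, Finset.card_range, nsmul_eq_mul] at h3
  refine le_trans ?_ (h3.trans h2)
  nlinarith


/-- the inductive statement -/
def RothAt (b : ℕ) (ε ω c : ℝ) : Prop :=
  ∀ (r : Fin b → ℕ), (∀ h, 1 ≤ r h) → (∀ h h', h < h' → (r h' : ℝ) ≤ ω * r h) →
    ∀ (P : MvPolynomial (Fin b) ℤ), P ≠ 0 → (∀ e, coeff e P ≠ 0 → ∀ h, e h ≤ r h) →
    ∀ (B : ℝ), 1 ≤ B → (∀ e, |((P.coeff e : ℤ) : ℝ)| ≤ B) →
    ∀ (ξ : Fin b → ℚ), (∀ h h', Real.log B + c * r h' ≤ ω * (r h * Real.log (ht (ξ h)))) →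
    ∃ k : Fin b →₀ ℕ, wg r k ≤ ε ∧
      coeff k (shift ξ (MvPolynomial.map (Int.castRingHom ℚ) P)) ≠ 0

lemma map_rename_det {α β : Type*} {n : ℕ} (φ : α → β)
    (A : Matrix (Fin n) (Fin n) (MvPolynomial α ℚ)) :
    rename φ A.det = (Matrix.of fun i j => rename φ (A i j)).det := by
  rw [AlgHom.map_det]
  rfl

theorem roth_step (b : ℕ) (ε : ℝ) (hε : 0 < ε) (hε1 : ε ≤ 1) (ω' c' : ℝ) (hω' : 0 < ω')
    (hc' : 0 < c') (IH : RothAt b (ε ^ 2 / 100) ω' c') (ω c : ℝ) (hω : 0 < ω) (hωω' : ω ≤ ω')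
    (hωε : ω ≤ ε ^ 2 / 100) (hc : c = (b + 1) * (3 + c'))
    (r : Fin b ⊕ Fin 1 → ℕ) (hr1 : ∀ q, 1 ≤ r q)
    (hr2 : ∀ h h' : Fin b, h < h' → (r (.inl h') : ℝ) ≤ ω * r (.inl h))
    (hr3 : ∀ h : Fin b, (r (.inr 0) : ℝ) ≤ ω * r (.inl h))
    (P : MvPolynomial (Fin b ⊕ Fin 1) ℤ) (hP : P ≠ 0)
    (hdeg : ∀ m, coeff m P ≠ 0 → ∀ q, m q ≤ r q)
    (B : ℝ) (hB1 : 1 ≤ B) (hB : ∀ m, |((coeff m P : ℤ) : ℝ)| ≤ B)
    (ξ : Fin b ⊕ Fin 1 → ℚ)
    (hξ : ∀ q q', Real.log B + c * r q' ≤ ω * (r q * Real.log (ht (ξ q)))) :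
    ∃ m, wg r m ≤ ε ∧ coeff m (shift ξ (MvPolynomial.map (Int.castRingHom ℚ) P)) ≠ 0 := by
  classical
  by_contra hcon
  have hcon' : ∀ m, coeff m (shift ξ (MvPolynomial.map (Int.castRingHom ℚ) P)) ≠ 0 →
      ε < wg r m := by
    intro m hm
    by_contra h
    exact hcon ⟨m, not_lt.mp h, hm⟩
  set ρ : ℕ := r (.inr 0) with hρ
  have hρ1 : 1 ≤ ρ := hr1 _
  have hρ0 : (0 : ℝ) < ρ := by exact_mod_cast hρ1
  set D : ℕ := ∑ q, r q with hD
  have hDρ : ρ ≤ D := Finset.single_le_sum (f := r) (fun _ _ => Nat.zero_le _) (Finset.mem_univ _)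
  set PQ : MvPolynomial (Fin b ⊕ Fin 1) ℚ := MvPolynomial.map (Int.castRingHom ℚ) P with hPQ
  have hPQ0 : PQ ≠ 0 := by
    intro hz
    apply hP
    apply MvPolynomial.map_injective (Int.castRingHom ℚ) (RingHom.injective_int _)
    rw [map_zero]
    exact hz
  have hPQc : ∀ m, coeff m PQ ≠ 0 → coeff m P ≠ 0 := by
    intro m hm hz
    apply hm
    rw [hPQ, coeff_map, hz, map_zero]
  -- averaged hypothesis
  have hav : ∀ q, Real.log B + (3 + c') * D ≤ ω * (r q * Real.log (ht (ξ q))) := by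
    intro q
    have h1 : ∑ q', (Real.log B + c * r q') ≤
        ∑ _q' : Fin b ⊕ Fin 1, ω * (r q * Real.log (ht (ξ q))) :=
      Finset.sum_le_sum fun q' _ => hξ q q'
    rw [Finset.sum_add_distrib, Finset.sum_const, Finset.sum_const, ← Finset.mul_sum,
      Finset.card_univ, Fintype.card_sum, Fintype.card_fin, Fintype.card_fin, nsmul_eq_mul,
      nsmul_eq_mul, ← Nat.cast_sum, ← hD, hc] at h1
    push_cast at h1
    have h2 : ((b : ℝ) + 1) * (Real.log B + (3 + c') * D) ≤
        ((b : ℝ) + 1) * (ω * (r q * Real.log (ht (ξ q)))) := by linarith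
    exact le_of_mul_le_mul_left h2 (by positivity)
  have hlogB : 0 ≤ Real.log B := Real.log_nonneg hB1
  have hD1 : (1 : ℝ) ≤ D := by
    have : 1 ≤ D := hρ1.trans hDρ
    exact_mod_cast this
  have hpos : ∀ q, 0 < Real.log (ht (ξ q)) := by
    intro q
    have h1 := hav q
    have h2 : 0 < ω * (r q * Real.log (ht (ξ q))) := lt_of_lt_of_le (by nlinarith) h1
    have h3 : 0 < (r q : ℝ) * Real.log (ht (ξ q)) := (mul_pos_iff_of_pos_left hω).mp h2
    have h4 : (0 : ℝ) < r q := by exact_mod_cast hr1 q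
    exact (mul_pos_iff_of_pos_left h4).mp h3
  -- decomposition
  set S : Finset (Fin 1 →₀ ℕ) := (Finset.range (ρ + 1)).image (fun j => Finsupp.single 0 j) with hS
  have hScard : S.card ≤ ρ + 1 := by
    refine Finset.card_image_le.trans ?_
    rw [Finset.card_range]
  have hSm : ∀ m, coeff m PQ ≠ 0 → p2 m ∈ S := by
    intro m hm
    have h1 := hdeg m (hPQc m hm) (.inr 0)
    rw [hS, Finset.mem_image]
    refine ⟨m (.inr 0), Finset.mem_range.mpr (by omega), ?_⟩
    apply Finsupp.ext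
    intro i
    rw [Subsingleton.elim i 0, Finsupp.single_eq_same, p2_apply]
  obtain ⟨n, f, g, hn0, hnS, hf, hg, hdec⟩ := exists_decomp PQ hPQ0 S hSm
  have hnρ : n ≤ ρ + 1 := hnS.trans hScard
  obtain ⟨K, hK, hU⟩ := exists_wronskian MonomialOrder.lex f hf
  obtain ⟨ν, hν, hV⟩ := exists_wronskian MonomialOrder.lex g hg
  set U := (Matrix.of fun i j => hd (K i) (f j)).det with hUdef
  set V := (Matrix.of fun i j => hd (ν i) (g j)).det with hVdef
  set A : Matrix (Fin n) (Fin n) (MvPolynomial (Fin b ⊕ Fin 1) ℤ) :=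
    Matrix.of fun i l => hd (cmb (K i) (ν l)) P with hA
  set W := A.det with hW
  -- the image of `W` splits
  have hWQ : MvPolynomial.map (Int.castRingHom ℚ) W = mix U V := by
    have h1 : MvPolynomial.map (Int.castRingHom ℚ) W =
        (Matrix.of fun i l => hd (cmb (K i) (ν l)) PQ).det := by
      rw [hW, RingHom.map_det]
      congr 1
      ext1 i l
      simp only [hA, RingHom.mapMatrix_apply, Matrix.map_apply, Matrix.of_apply]
      rw [map_hd]
    have h2 : (Matrix.of fun i l => hd (cmb (K i) (ν l)) PQ) =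
        (Matrix.of fun i j => rename Sum.inl ((Matrix.of fun i j => hd (K i) (f j)) i j)) *
        (Matrix.of fun i j => rename Sum.inr
          ((Matrix.of fun i j => hd (ν i) (g j)) i j)).transpose := by
      ext1 i l
      rw [Matrix.mul_apply, Matrix.of_apply]
      conv_lhs => rw [hdec, hd_sum]
      apply Finset.sum_congr rfl
      intro j _
      rw [hd_mix, mix_apply, Matrix.transpose_apply]
      rfl
    rw [h1, h2, Matrix.det_mul, Matrix.det_transpose, ← map_rename_det, ← map_rename_det,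
      mix_apply]
  -- bound for the coefficients of `W`
  set BW : ℝ := (n.factorial : ℝ) * (B * 4 ^ D) ^ n with hBW
  have hMaj : Maj W ((n.factorial : MvPolynomial _ ℝ) * (C (B * 2 ^ D) * box r) ^ n) :=
    Maj.det A _ fun i l => maj_hd P r hdeg B (by linarith) hB _
  have hBWc : ∀ m, |((coeff m W : ℤ) : ℝ)| ≤ BW := by
    intro m
    refine (hMaj.coeff_le_eval m).trans ?_
    rw [map_mul, map_pow, map_mul, eval_C, map_natCast, hBW]
    have h1 := eval_box_le r
    have h0 : 0 ≤ eval (fun _ => (1 : ℝ)) (box r) := by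
      rw [box, map_sum]
      apply Finset.sum_nonneg
      intro e _
      rw [eval_monomial]
      simp
    apply mul_le_mul_of_nonneg_left _ (Nat.cast_nonneg _)
    apply pow_le_pow_left₀
    · have : 0 ≤ B := by linarith
      positivity
    · rw [mul_assoc]
      apply mul_le_mul_of_nonneg_left _ (by linarith)
      calc (2 : ℝ) ^ D * eval (fun _ => (1 : ℝ)) (box r) ≤ 2 ^ D * 2 ^ D :=
            mul_le_mul_of_nonneg_left h1 (by positivity)
        _ = 4 ^ D := by rw [← mul_pow]; norm_num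
  have hB4 : 1 ≤ B * 4 ^ D := by
    have : (1 : ℝ) ≤ 4 ^ D := one_le_pow₀ (by norm_num)
    nlinarith
  have hBW1 : 1 ≤ BW := by
    rw [hBW]
    have h1 : (1 : ℝ) ≤ n.factorial := by exact_mod_cast Nat.succ_le_of_lt (Nat.factorial_pos n)
    have h2 : (1 : ℝ) ≤ (B * 4 ^ D) ^ n := one_le_pow₀ hB4
    nlinarith
  have hlogBW : Real.log BW ≤ n * (Real.log B + 3 * D) := by
    rw [hBW, Real.log_mul (by exact_mod_cast Nat.factorial_ne_zero n) (by positivity),
      Real.log_pow, Real.log_mul (by positivity) (by positivity), Real.log_pow]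
    have h1 : Real.log (n.factorial : ℝ) ≤ n * D := by
      have h2 : (n.factorial : ℝ) ≤ (n : ℝ) ^ n := by exact_mod_cast Nat.factorial_le_pow n
      have h3 : (0 : ℝ) < n := by exact_mod_cast hn0
      calc Real.log (n.factorial : ℝ) ≤ Real.log ((n : ℝ) ^ n) :=
            Real.log_le_log (by exact_mod_cast Nat.factorial_pos n) h2
        _ = n * Real.log n := by rw [Real.log_pow]
        _ ≤ n * D := by
            apply mul_le_mul_of_nonneg_left _ h3.le
            have h4 := Real.log_le_sub_one_of_pos h3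
            have h5 : (n : ℝ) ≤ D + 1 := by
              have : n ≤ D + 1 := by omega
              exact_mod_cast this
            linarith
    have h6 : Real.log 4 ≤ 2 := by
      have : (4 : ℝ) = 2 ^ 2 := by norm_num
      rw [this, Real.log_pow]
      have := Real.log_two_lt_d9
      push_cast
      linarith
    have h7 : (D : ℝ) * Real.log 4 ≤ D * 2 := mul_le_mul_of_nonneg_left h6 (by positivity)
    have h8 : (n : ℝ) * (Real.log B + D * Real.log 4) ≤ n * (Real.log B + D * 2) :=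
      mul_le_mul_of_nonneg_left (by linarith) (by positivity)
    nlinarith
  have hWdeg : ∀ m, coeff m W ≠ 0 → ∀ q, m q ≤ n * r q := by
    intro m hm q
    apply degree_box_pow r (B * 2 ^ D) n m
    intro hz
    have := hMaj m
    rw [hz] at this
    apply hm
    have h2 : ((coeff m W : ℤ) : ℝ) = 0 := by
      rw [← abs_eq_zero]; exact le_antisymm this (abs_nonneg _)
    exact_mod_cast h2
  -- integer multiples of `U` and `V`
  obtain ⟨κ0, hκ0⟩ := MvPolynomial.ne_zero_iff.mp hV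
  obtain ⟨e0, he0⟩ := MvPolynomial.ne_zero_iff.mp hU
  have hcW : ∀ e κ, ((coeff (cmb e κ) W : ℤ) : ℚ) = coeff e U * coeff κ V := by
    intro e κ
    have := congrArg (coeff (cmb e κ)) hWQ
    rw [coeff_map, coeff_mix] at this
    exact this
  have hU' : MvPolynomial.map (Int.castRingHom ℚ) (sl2 κ0 W) = C (coeff κ0 V) * U := by
    ext e
    rw [coeff_map, coeff_sl2, coeff_C_mul]
    exact (hcW e κ0).trans (mul_comm _ _)
  have hV' : MvPolynomial.map (Int.castRingHom ℚ) (sl1 e0 W) = C (coeff e0 U) * V := by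
    ext κ
    rw [coeff_map, coeff_sl1, coeff_C_mul]
    exact hcW e0 κ
  have hU0 : sl2 κ0 W ≠ 0 := by
    intro hz
    rw [hz, map_zero] at hU'
    exact mul_ne_zero (C_ne_zero.mpr hκ0) hU hU'.symm
  have hV0 : sl1 e0 W ≠ 0 := by
    intro hz
    rw [hz, map_zero] at hV'
    exact mul_ne_zero (C_ne_zero.mpr he0) hV hV'.symm
  -- apply the induction hypothesis
  have hnR : (0 : ℝ) < n := by exact_mod_cast hn0
  obtain ⟨Ks, hKs, hKsU⟩ := IH (fun h => n * r (.inl h))
    (fun h => Nat.mul_pos hn0 (hr1 _))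
    (fun h h' hh => by
      push_cast
      have h1 := hr2 h h' hh
      have h2 : (r (.inl h') : ℝ) ≤ ω' * r (.inl h) :=
        h1.trans (mul_le_mul_of_nonneg_right hωω' (by positivity))
      calc (n : ℝ) * r (.inl h') ≤ n * (ω' * r (.inl h)) :=
            mul_le_mul_of_nonneg_left h2 hnR.le
        _ = ω' * (n * r (.inl h)) := by ring)
    (sl2 κ0 W) hU0
    (fun e he h => by
      rw [coeff_sl2] at he
      exact hWdeg _ he (.inl h))
    BW hBW1 (fun e => by rw [coeff_sl2]; exact hBWc _)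
    (fun h => ξ (.inl h))
    (fun h h' => by
      push_cast
      have h1 := hav (.inl h)
      have h2 : (r (.inl h') : ℝ) ≤ D := by
        have : r (.inl h') ≤ D :=
          Finset.single_le_sum (f := r) (fun _ _ => Nat.zero_le _) (Finset.mem_univ _)
        exact_mod_cast this
      have h3 : (r (.inl h) : ℝ) * Real.log (ht (ξ (.inl h))) ≥ 0 :=
        mul_nonneg (Nat.cast_nonneg _) (hpos _).le
      have h4 : ω * (r (.inl h) * Real.log (ht (ξ (.inl h)))) ≤
          ω' * (r (.inl h) * Real.log (ht (ξ (.inl h)))) :=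
        mul_le_mul_of_nonneg_right hωω' h3
      have h5 : c' * (n * (r (.inl h') : ℝ)) ≤ n * (c' * D) := by
        have := mul_le_mul_of_nonneg_left h2 (mul_pos hnR hc').le
        nlinarith
      calc Real.log BW + c' * (n * (r (.inl h') : ℝ)) ≤
            n * (Real.log B + 3 * D) + n * (c' * D) := add_le_add hlogBW h5
        _ = n * (Real.log B + (3 + c') * D) := by ring
        _ ≤ n * (ω' * (r (.inl h) * Real.log (ht (ξ (.inl h))))) :=
            mul_le_mul_of_nonneg_left (h1.trans h4) hnR.le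
        _ = ω' * (n * r (.inl h) * Real.log (ht (ξ (.inl h)))) := by ring)
  have hht : 1 < ht (ξ (.inr 0)) := by
    by_contra h
    have h1 : 0 ≤ ht (ξ (.inr 0)) := le_max_of_le_left (Nat.cast_nonneg _)
    have := Real.log_nonpos h1 (not_lt.mp h)
    linarith [hpos (.inr 0)]
  obtain ⟨κs, hκsV, hκs⟩ := base_one (sl1 e0 W) hV0 BW
    (fun e => by rw [coeff_sl1]; exact hBWc _) (fun h => ξ (.inr h)) hht
  have hKsU' : coeff Ks (shift (fun h => ξ (.inl h)) U) ≠ 0 := by
    rw [hU', map_mul, shift_C, coeff_C_mul] at hKsU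
    exact right_ne_zero_of_mul hKsU
  have hκsV' : coeff κs (shift (fun h => ξ (.inr h)) V) ≠ 0 := by
    rw [hV', map_mul, shift_C, coeff_C_mul] at hκsV
    exact right_ne_zero_of_mul hκsV
  have hms : coeff (cmb Ks κs) (shift ξ (MvPolynomial.map (Int.castRingHom ℚ) W)) ≠ 0 := by
    rw [hWQ, shift_mix, coeff_mix]
    exact mul_ne_zero hKsU' hκsV'
  -- lower bound for the index
  set θ : ℝ := ε - ω with hθ
  have hGe : Ge r (∑ l : Fin n, max 0 (θ - (l : ℝ) / ρ))
      (shift ξ (MvPolynomial.map (Int.castRingHom ℚ) W)) := by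
    have h1 : shift ξ (MvPolynomial.map (Int.castRingHom ℚ) W) =
        (Matrix.of fun i l => hd (cmb (K i) (ν l)) (shift ξ PQ)).det := by
      rw [hW, RingHom.map_det, AlgHom.map_det]
      congr 1
      ext1 i l
      simp only [hA, RingHom.mapMatrix_apply, AlgHom.mapMatrix_apply, Matrix.map_apply,
        Matrix.of_apply]
      rw [map_hd, shift_hd]
    rw [h1]
    apply Ge.det
    intro i l
    apply Ge.hd hcon'
    apply max_le_max le_rfl
    have h2 : wg r (cmb (K i) (ν l)) ≤ ω + (l : ℝ) / ρ := by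
      unfold wg
      rw [Fintype.sum_sum_type]
      apply add_le_add
      · have h3 : ∀ h : Fin b, ((cmb (K i) (ν l) (.inl h) : ℕ) : ℝ) / (r (.inl h) : ℝ) ≤
            ω / ρ * (K i h : ℝ) := by
          intro h
          rw [cmb_inl]
          have h4 : (0 : ℝ) < r (.inl h) := by exact_mod_cast hr1 _
          rw [div_le_iff₀ h4]
          have h5 := hr3 h
          have h6 : (1 : ℝ) ≤ ω / ρ * r (.inl h) := by
            rw [div_mul_eq_mul_div, le_div_iff₀ hρ0, one_mul]
            exact h5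
          have h7 : (0 : ℝ) ≤ K i h := Nat.cast_nonneg _
          nlinarith
        refine (Finset.sum_le_sum fun h _ => h3 h).trans ?_
        rw [← Finset.mul_sum, ← Nat.cast_sum]
        have h4 : ((∑ h, K i h : ℕ) : ℝ) ≤ ρ := by
          have h5 : ∑ h, K i h ≤ ρ := by
            have := hK i
            have := i.isLt
            omega
          exact_mod_cast h5
        calc ω / ρ * ((∑ h, K i h : ℕ) : ℝ) ≤ ω / ρ * ρ :=
              mul_le_mul_of_nonneg_left h4 (by positivity)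
          _ = ω := by field_simp
      · rw [Fintype.sum_unique]
        simp only [Fin.default_eq_zero, cmb_inr]
        apply div_le_div_of_nonneg_right _ hρ0.le
        have := hν l
        rw [Fintype.sum_unique] at this
        exact_mod_cast this
    rw [hθ]
    linarith
  have hlow := hGe _ hms
  have hεω : ω ≤ ε / 2 := by nlinarith
  have hsl := sum_lower n ρ hnρ hρ1 θ (by linarith) (by linarith)
  have hup : wg r (cmb Ks κs) ≤ n * (ε ^ 2 / 100) + n * ω := by
    unfold wg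
    rw [Fintype.sum_sum_type]
    apply add_le_add
    · have h1 : ∑ h : Fin b, ((cmb Ks κs (.inl h) : ℕ) : ℝ) / (r (.inl h) : ℝ) =
          n * wg (fun h => n * r (.inl h)) Ks := by
        unfold wg
        rw [Finset.mul_sum]
        apply Finset.sum_congr rfl
        intro h _
        rw [cmb_inl]
        push_cast
        have h4 : (0 : ℝ) < r (.inl h) := by exact_mod_cast hr1 _
        field_simp
      rw [h1]
      exact mul_le_mul_of_nonneg_left hKs hnR.le
    · rw [Fintype.sum_unique]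
      simp only [Fin.default_eq_zero, cmb_inr]
      rw [div_le_iff₀ hρ0]
      have h1 := hav (.inr 0)
      have h2 := hpos (.inr 0)
      have h3 : (κs 0 : ℝ) * Real.log (ht (ξ (.inr 0))) ≤
          n * ω * ρ * Real.log (ht (ξ (.inr 0))) := by
        refine hκs.trans (hlogBW.trans ?_)
        have h4 : Real.log B + 3 * D ≤ Real.log B + (3 + c') * D := by nlinarith
        calc (n : ℝ) * (Real.log B + 3 * D) ≤ n * (ω * (ρ * Real.log (ht (ξ (.inr 0))))) :=
              mul_le_mul_of_nonneg_left (h4.trans h1) hnR.le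
          _ = n * ω * ρ * Real.log (ht (ξ (.inr 0))) := by ring
      exact le_of_mul_le_mul_right h3 h2
  have hθ2 : ε / 2 ≤ θ := by linarith
  have h9 : n * (ε / 2) ^ 2 / 8 ≤ n * θ ^ 2 / 8 := by
    have : (ε / 2) ^ 2 ≤ θ ^ 2 := by
      apply pow_le_pow_left₀ (by positivity) hθ2
    have := mul_le_mul_of_nonneg_left this hnR.le
    linarith
  have h10 : n * ω ≤ n * (ε ^ 2 / 100) := mul_le_mul_of_nonneg_left hωε hnR.le
  have h11 : n * (ε / 2) ^ 2 / 8 ≤ n * (ε ^ 2 / 100) + n * (ε ^ 2 / 100) := by linarith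
  have h12 : 0 < (n : ℝ) * ε ^ 2 := by positivity
  nlinarith

theorem rothAt_mono {b : ℕ} {ε ε' ω c : ℝ} (h : ε ≤ ε') (H : RothAt b ε ω c) :
    RothAt b ε' ω c := by
  intro r h1 h2 P hP h3 B hB1 hB ξ hξ
  obtain ⟨k, hk, hk2⟩ := H r h1 h2 P hP h3 B hB1 hB ξ hξ
  exact ⟨k, hk.trans h, hk2⟩

theorem exists_rothAt : ∀ (b : ℕ) (ε : ℝ), 0 < ε → ∃ ω c : ℝ, 0 < ω ∧ 0 < c ∧ RothAt b ε ω c
  | 0, ε, hε => by
    refine ⟨1, 1, one_pos, one_pos, ?_⟩
    intro r _ _ P hP _ B _ _ ξ _
    refine ⟨0, by rw [wg_zero]; exact hε.le, ?_⟩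
    have h1 : P = C (coeff 0 P) := eq_C_of_isEmpty P
    have h2 : coeff 0 P ≠ 0 := by
      intro hz
      apply hP
      rw [h1, hz, C_0]
    rw [h1, map_C, shift_C, coeff_zero_C]
    simpa using h2
  | b + 1, ε, hε => by
    classical
    set ε1 : ℝ := min ε 1 with hε1
    have hε10 : 0 < ε1 := lt_min hε one_pos
    obtain ⟨ω', c', hω', hc', IH⟩ := exists_rothAt b (ε1 ^ 2 / 100) (by positivity)
    set ω : ℝ := min ω' (ε1 ^ 2 / 100) with hω
    have hω0 : 0 < ω := lt_min hω' (by positivity)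
    refine ⟨ω, (b + 1) * (3 + c'), hω0, by positivity, ?_⟩
    apply rothAt_mono (min_le_left ε 1)
    intro r hr1 hr2 P hP hdeg B hB1 hB ξ hξ
    set E : Fin b ⊕ Fin 1 ≃ Fin (b + 1) := finSumFinEquiv with hE
    have hcoef : ∀ m : (Fin b ⊕ Fin 1) →₀ ℕ,
        coeff m (rename E.symm P) = coeff (m.mapDomain E) P := by
      intro m
      have h1 : m = (m.mapDomain E).mapDomain E.symm := by
        rw [← Finsupp.mapDomain_comp]
        simp
      conv_lhs => rw [h1]
      exact coeff_rename_mapDomain _ E.symm.injective _ _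
    have hmap : ∀ (m : (Fin b ⊕ Fin 1) →₀ ℕ) (q), m.mapDomain E (E q) = m q := fun m q =>
      Finsupp.mapDomain_apply E.injective m q
    have hP' : rename E.symm P ≠ 0 := by
      intro hz
      apply hP
      exact rename_injective _ E.symm.injective (by rw [hz, map_zero])
    obtain ⟨m, hm1, hm2⟩ := roth_step b ε1 hε10 (min_le_right _ _) ω' c' hω' hc' IH ω
      ((b + 1) * (3 + c')) hω0 (min_le_left _ _) (min_le_right _ _) rfl (fun q => r (E q))
      (fun q => hr1 _)
      (fun h h' hh => hr2 _ _ (by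
        rw [hE, finSumFinEquiv_apply_left, finSumFinEquiv_apply_left]
        exact hh))
      (fun h => hr2 _ _ (by
        rw [hE, finSumFinEquiv_apply_left, finSumFinEquiv_apply_right]
        rw [Fin.lt_def]
        simp))
      (rename E.symm P) hP'
      (fun m hm q => by
        rw [hcoef] at hm
        rw [← hmap m q]
        exact hdeg _ hm _)
      B hB1 (fun m => by rw [hcoef]; exact hB _) (fun q => ξ (E q)) (fun q q' => hξ _ _)
    refine ⟨m.mapDomain E, ?_, ?_⟩
    · refine le_trans (le_of_eq ?_) hm1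
      unfold wg
      rw [← Equiv.sum_comp E]
      apply Finset.sum_congr rfl
      intro q _
      rw [hmap]
    · rw [map_rename, shift_rename] at hm2
      have h1 : (fun i => (fun q => ξ (E q)) (E.symm i)) = ξ := by
        funext i; simp
      rw [h1] at hm2
      have h2 : m = (m.mapDomain E).mapDomain E.symm := by
        rw [← Finsupp.mapDomain_comp]
        simp
      rw [h2, coeff_rename_mapDomain _ E.symm.injective] at hm2
      exact hm2

/-- **Roth's lemma**. -/
theorem roth1 (b : ℕ) (ε : ℝ) (hε : 0 < ε) : ∃ ω c : ℝ, 0 < ω ∧ 0 < c ∧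
    ∀ (r : Fin b → ℕ), (∀ h, 1 ≤ r h) → (∀ h h', h < h' → (r h' : ℝ) ≤ ω * r h) →
    ∀ (P : MvPolynomial (Fin b) ℤ), P ≠ 0 → (∀ e ∈ P.support, ∀ h, e h ≤ r h) →
    ∀ (B : ℝ), 1 ≤ B → (∀ e, |((P.coeff e : ℤ) : ℝ)| ≤ B) →
    ∀ (ξ : Fin b → ℚ), (∀ h h', Real.log B + c * r h' ≤ ω * (r h * Real.log (ht (ξ h)))) →
    ∃ k : Fin b →₀ ℕ, wt r k ≤ ε ∧ eval ξ (hd k (map (Int.castRingHom ℚ) P)) ≠ 0 := by
  obtain ⟨ω, c, hω, hc, H⟩ := exists_rothAt b ε hε
  refine ⟨ω, c, hω, hc, ?_⟩
  intro r h1 h2 P hP h3 B hB1 hB ξ hξ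
  obtain ⟨k, hk, hk2⟩ := H r h1 h2 P hP (fun e he => h3 e (MvPolynomial.mem_support_iff.mpr he))
    B hB1 hB ξ hξ
  exact ⟨k, hk, by rw [← coeff_shift]; exact hk2⟩

end Pool.Agent.Helper71.Sub
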