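import Pool.Agent.Helper71.SEYApi2

/-!
Tutte's linking theorem and preservation (block LINK of the Seymour project).
-/

namespace SEY

open Finset Submodule BM

variable {E : Type} [Fintype E] [DecidableEq E]

theorem tutte_aux (n : ℕ) : ∀ (M : BM E) (X Y : Finset E), X ⊆ M.S → Y ⊆ M.S → Disjoint X Y →
    (M.S \ (X ∪ Y)).card ≤ n → ∀ k : ℕ, (∀ A, X ⊆ A → A ⊆ M.S → Disjoint A Y → k ≤ M.lam A) →
    ∃ C D : Finset E, Disjoint C D ∧ C ∪ D = M.S \ (X ∪ Y) ∧ k ≤ ((M.con C).del D).lam X := by
  induction n with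
  | zero =>
    intro M X Y hX hY hd hn k h
    refine ⟨∅, ∅, by simp, ?_, ?_⟩
    · have := Finset.card_eq_zero.1 (Nat.le_zero.1 hn)
      rw [this]; simp
    · simpa using h X (Finset.Subset.refl _) hX hd
  | succ n ih =>
    intro M X Y hX hY hd hn k h
    by_cases h0 : M.S \ (X ∪ Y) = ∅
    · refine ⟨∅, ∅, by simp, by rw [h0]; simp, ?_⟩
      simpa using h X (Finset.Subset.refl _) hX hd
    obtain ⟨e, he⟩ := Finset.nonempty_iff_ne_empty.2 h0
    simp only [Finset.mem_sdiff, Finset.mem_union, not_or] at he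
    obtain ⟨heS, heX, heY⟩ := he
    have hXe : X ⊆ M.S \ {e} := by
      intro f hf
      simp only [Finset.mem_sdiff, Finset.mem_singleton]
      exact ⟨hX hf, fun h' => heX (h' ▸ hf)⟩
    have hYe : Y ⊆ M.S \ {e} := by
      intro f hf
      simp only [Finset.mem_sdiff, Finset.mem_singleton]
      exact ⟨hY hf, fun h' => heY (h' ▸ hf)⟩
    have hcard : ((M.S \ {e}) \ (X ∪ Y)).card ≤ n := by
      have h1 : (M.S \ {e}) \ (X ∪ Y) = (M.S \ (X ∪ Y)).erase e := by
        ext f; simp; tauto
      have h2 : e ∈ M.S \ (X ∪ Y) := by simp [heS, heX, heY]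
      rw [h1, Finset.card_erase_of_mem h2]
      omega
    have hset : ∀ {C D : Finset E}, C ∪ D = (M.S \ {e}) \ (X ∪ Y) →
        (insert e C ∪ D = M.S \ (X ∪ Y) ∧ C ∪ insert e D = M.S \ (X ∪ Y)) ∧ e ∉ C ∧ e ∉ D := by
      intro C D hCD
      have h1 : M.S \ (X ∪ Y) = insert e (C ∪ D) := by
        rw [hCD]
        ext f
        by_cases hf : f = e
        · subst hf; simp [heS, heX, heY]
        · simp [hf]
      have h2 : e ∉ C ∪ D := by rw [hCD]; simp
      rw [h1]
      refine ⟨⟨by simp, by simp⟩, ?_, ?_⟩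
      · exact fun h' => h2 (by simp [h'])
      · exact fun h' => h2 (by simp [h'])
    by_cases h1 : ∀ A, X ⊆ A → A ⊆ (M.del {e}).S → Disjoint A Y → k ≤ (M.del {e}).lam A
    · obtain ⟨C, D, hCD, hU, hk⟩ := ih (M.del {e}) X Y hXe hYe hd hcard k h1
      obtain ⟨⟨h3, h4⟩, h5, h6⟩ := hset hU
      refine ⟨C, insert e D, ?_, h4, ?_⟩
      · rw [Finset.disjoint_insert_right]; exact ⟨h5, hCD⟩
      · rw [M.del_con (D := {e}) (C := C) (by simpa using h5), del_del] at hk
        exact hk
    · by_cases h2 : ∀ A, X ⊆ A → A ⊆ (M.con {e}).S → Disjoint A Y → k ≤ (M.con {e}).lam A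
      · obtain ⟨C, D, hCD, hU, hk⟩ := ih (M.con {e}) X Y hXe hYe hd hcard k h2
        obtain ⟨⟨h3, h4⟩, h5, h6⟩ := hset hU
        refine ⟨insert e C, D, ?_, h3, ?_⟩
        · rw [Finset.disjoint_insert_left]; exact ⟨h6, hCD⟩
        · rw [con_con] at hk
          exact hk
      · exfalso
        push_neg at h1 h2
        obtain ⟨A, hA1, hA2, hA3, hA4⟩ := h1
        obtain ⟨A', hB1, hB2, hB3, hB4⟩ := h2
        simp only [del_S, con_S] at hA2 hB2
        have e1 : e ∉ A := fun h' => by simpa using hA2 h'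
        have e2 : e ∉ A' := fun h' => by simpa using hB2 h'
        have h3 := M.uncross heS e1 e2
        have h4 := h (A ∩ A') (Finset.subset_inter hA1 hB1)
          (fun f hf => (Finset.mem_sdiff.1 (hA2 (Finset.mem_inter.1 hf).1)).1)
          (Finset.disjoint_of_subset_left Finset.inter_subset_left hA3)
        have h5 := h (insert e (A ∪ A')) (fun f hf => by simp [hA1 hf])
          (by
            intro f hf
            simp only [Finset.mem_insert, Finset.mem_union] at hf
            rcases hf with hf | hf | hf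
            · exact hf ▸ heS
            · exact (Finset.mem_sdiff.1 (hA2 hf)).1
            · exact (Finset.mem_sdiff.1 (hB2 hf)).1)
          (by
            rw [Finset.disjoint_insert_left, Finset.disjoint_union_left]
            exact ⟨heY, hA3, hB3⟩)
        omega

/-- Tutte's linking theorem. -/
theorem linking' (M : BM E) (X Y : Finset E) (hX : X ⊆ M.S) (hY : Y ⊆ M.S) (hd : Disjoint X Y)
    (k : ℕ) (h : ∀ A, X ⊆ A → A ⊆ M.S → Disjoint A Y → k ≤ M.lam A) :
    ∃ C D : Finset E, Disjoint C D ∧ Disjoint C (X ∪ Y) ∧ Disjoint D (X ∪ Y) ∧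
      X ∪ Y ∪ C ∪ D = M.S ∧ k ≤ ((M.con C).del D).lam X := by
  obtain ⟨C, D, h1, h2, h3⟩ := tutte_aux _ M X Y hX hY hd le_rfl k h
  have hC : ∀ e ∈ C, e ∈ M.S \ (X ∪ Y) := fun e he => by rw [← h2]; simp [he]
  have hD : ∀ e ∈ D, e ∈ M.S \ (X ∪ Y) := fun e he => by rw [← h2]; simp [he]
  refine ⟨C, D, h1, ?_, ?_, ?_, h3⟩
  · rw [Finset.disjoint_left]
    exact fun e he => (Finset.mem_sdiff.1 (hC e he)).2
  · rw [Finset.disjoint_left]
    exact fun e he => (Finset.mem_sdiff.1 (hD e he)).2
  · rw [Finset.union_assoc, h2, Finset.union_sdiff_of_subset (Finset.union_subset hX hY)]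

/-- Preservation: if the connectivity of `X` does not drop, contracted sets are skew to `X`. -/
theorem preserve' (M : BM E) (X C D : Finset E) (hX : X ⊆ M.S) (hC : C ⊆ M.S) (hCX : Disjoint C X)
    (hDX : Disjoint D X) (h : M.lam X ≤ ((M.con C).del D).lam X) :
    (∀ f ∈ M.R, ∃ f' ∈ M.R, (∀ c ∈ C, f' c = 0) ∧ ∀ x ∈ X, f' x = f x) ∧
      ∀ g : E → ZMod 2, (∀ e, e ∉ X → g e = 0) → g ∈ ((M.con C).del D).R → g ∈ M.R := by
  have h1 := M.lam_con_le C X
  have h2 := (M.con C).lam_del_le D X
  have e1 : (M.con C).lam X = M.lam X := by omega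
  have e2 : ((M.con C).del D).lam X = M.lam X := by omega
  -- `C` is skew to `X`
  have g1 := M.lam_con_add C X
  have g2 := M.lam_add_rk X
  have g3 : M.r ((M.S \ X) ∪ C) = M.r (M.S \ X) := by
    congr 1
    ext e
    simp only [Finset.mem_union, Finset.mem_sdiff]
    constructor
    · rintro (h3 | h3)
      · exact h3
      · exact ⟨hC h3, fun h4 => Finset.disjoint_left.1 hCX h3 h4⟩
    · exact Or.inl
  rw [g3, e1] at g1
  have hskew : M.r (X ∪ C) = M.r X + M.r C := by omega
  -- hence the rows vanishing on `C` restrict onto all rows of `X`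
  have hr : (M.con C).r X = M.r X := by
    have := M.r_con_add C X
    omega
  have hle : (M.con C).R.map (mask X) ≤ M.R.map (mask X) := by
    rintro _ ⟨f, hf, rfl⟩
    exact ⟨f, hf.1, rfl⟩
  have heq : (M.con C).R.map (mask X) = M.R.map (mask X) :=
    Submodule.eq_of_le_of_finrank_eq hle hr
  refine ⟨fun f hf => ?_, fun g hg hgR => ?_⟩
  · have h3 : mask X f ∈ (M.con C).R.map (mask X) := by
      rw [heq]; exact ⟨f, hf, rfl⟩
    obtain ⟨f', hf', h4⟩ := h3
    refine ⟨f', hf'.1, hf'.2, fun x hx => ?_⟩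
    have := congrFun h4 x
    simpa [hx] using this
  · -- dimension count for the rows inside `X`
    have hXc : X \ C = X := Finset.sdiff_eq_self_of_disjoint hCX.symm
    have hXd : X \ D = X := Finset.sdiff_eq_self_of_disjoint hDX.symm
    have k1 := ((M.con C).del D).lam_add_dR_eq_r X
    have k2 := M.lam_add_dR_eq_r X
    have k3 := (M.con C).r_del D X
    rw [hXd, hr] at k3
    have k4 : ((M.con C).del D).dR X = M.dR X := by omega
    have hle2 : M.RIn X ≤ ((M.con C).del D).RIn X := by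
      rintro f ⟨hf, hfX⟩
      have hfC : f ∈ (M.con C).R := ⟨hf, fun e he => hfX e (Finset.disjoint_left.1 hCX he)⟩
      refine ⟨⟨f, hfC, mask_eq_self (fun e he => ?_)⟩, hfX⟩
      by_cases hS : e ∈ M.S
      · by_cases hCe : e ∈ C
        · exact hfX e (Finset.disjoint_left.1 hCX hCe)
        · have : e ∈ D := by
            by_contra hDe
            exact he (by simp [hS, hCe, hDe])
          exact hfX e (Finset.disjoint_left.1 hDX this)
      · exact M.supp f hf e hS
    have heq2 : M.RIn X = ((M.con C).del D).RIn X :=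
      Submodule.eq_of_le_of_finrank_eq hle2 k4.symm
    have : g ∈ ((M.con C).del D).RIn X := ⟨hgR, hg⟩
    rw [← heq2] at this
    exact this.1

end SEY
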