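import Mathlib
import Pool.Agent.Helper9.STP.Graphs

/-!
# Lifts of graphs to the comb graph: monotonicity, trees, connected preimages
-/

namespace Pool.Agent.Helper71.STPG1b

open Pool.Agent.Helper9.SpTree
open scoped Classical

variable {ι : Type}

theorem liftRel_mono {N s : ℕ} (e : ι ≃ Fin N) {T T' : SimpleGraph ι} (h : T ≤ T')
    {x y : CV ι N s} (hxy : LiftRel N s e T x y) : LiftRel N s e T' x y := by
  cases hxy with
  | spine i k k' h1 => exact .spine i k k' h1
  | attach i j k l hk hl => exact .attach i j k l hk hl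
  | pendant i j l l' h1 => exact .pendant i j l l' h1
  | cross i j l hij h1 => exact .cross i j l (h hij) h1

theorem lift_mono {N s : ℕ} (e : ι ≃ Fin N) {T T' : SimpleGraph ι} (h : T ≤ T') :
    lift N s e T ≤ lift N s e T' := by
  intro x y hxy
  rw [lift, SimpleGraph.fromRel_adj] at hxy ⊢
  exact ⟨hxy.1, hxy.2.imp (liftRel_mono e h) (liftRel_mono e h)⟩

theorem ne_of_liftRel {N s : ℕ} (e : ι ≃ Fin N) {T : SimpleGraph ι}
    {x y : CV ι N s} (hxy : LiftRel N s e T x y) : x ≠ y := by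
  cases hxy with
  | spine i k k' h1 =>
    intro hh
    have := (Prod.mk.inj (Sum.inl.inj hh)).2
    subst this
    omega
  | attach i j k l hk hl => intro hh; cases hh
  | pendant i j l l' h1 =>
    intro hh
    have := (Prod.mk.inj (Prod.mk.inj (Sum.inr.inj hh)).2).2
    subst this
    omega
  | cross i j l hij h1 =>
    intro hh
    have := (Prod.mk.inj (Sum.inr.inj hh)).1
    exact hij.ne this

theorem lift_adj_of_rel {N s : ℕ} (e : ι ≃ Fin N) {T : SimpleGraph ι}
    {x y : CV ι N s} (hxy : LiftRel N s e T x y) : (lift N s e T).Adj x y := by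
  rw [lift, SimpleGraph.fromRel_adj]
  exact ⟨ne_of_liftRel e hxy, Or.inl hxy⟩

theorem proj_of_rel {N s : ℕ} (e : ι ≃ Fin N) {T : SimpleGraph ι}
    {x y : CV ι N s} (hxy : LiftRel N s e T x y) :
    CV.proj x = CV.proj y ∨ T.Adj (CV.proj x) (CV.proj y) := by
  cases hxy with
  | spine i k k' h1 => exact Or.inl rfl
  | attach i j k l hk hl => exact Or.inl rfl
  | pendant i j l l' h1 => exact Or.inl rfl
  | cross i j l hij h1 => exact Or.inr hij

theorem proj_of_adj {N s : ℕ} (e : ι ≃ Fin N) {T : SimpleGraph ι}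
    {x y : CV ι N s} (hxy : (lift N s e T).Adj x y) :
    CV.proj x = CV.proj y ∨ T.Adj (CV.proj x) (CV.proj y) := by
  rw [lift, SimpleGraph.fromRel_adj] at hxy
  rcases hxy.2 with h | h
  · exact proj_of_rel e h
  · rcases proj_of_rel e h with h | h
    · exact Or.inl h.symm
    · exact Or.inr h.symm

theorem pos_mul {N s : ℕ} (hs : 0 < s) (e : ι ≃ Fin N) (i : ι) : 0 < N * s :=
  Nat.mul_pos (Fin.pos (e i)) hs

theorem port_lt {N s : ℕ} (hs : 0 < s) (e : ι ≃ Fin N) (j : ι) : (e j : ℕ) * s < N * s :=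
  Nat.mul_lt_mul_of_pos_right (e j).isLt hs

/-- the base point of a fibre -/
def base {N s : ℕ} (hs : 0 < s) (e : ι ≃ Fin N) (i : ι) : CV ι N s :=
  .inl (i, ⟨0, pos_mul hs e i⟩)

section Reach

variable {N s : ℕ} (hs : 0 < s) (e : ι ≃ Fin N) (T : SimpleGraph ι) (U : Set ι)

/-- the graph induced on the preimage -/
abbrev GI (N s : ℕ) (e : ι ≃ Fin N) (T : SimpleGraph ι) (U : Set ι) :
    SimpleGraph {x : CV ι N s | CV.proj x ∈ U} :=
  (lift N s e T).induce {x | CV.proj x ∈ U}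

include hs in
theorem reach_inl (i : ι) (hi : i ∈ U) : ∀ (k : ℕ) (hk : k < N * s),
    (GI N s e T U).Reachable ⟨base hs e i, hi⟩ ⟨.inl (i, ⟨k, hk⟩), hi⟩
  | 0, hk => SimpleGraph.Reachable.refl _
  | k + 1, hk => by
    refine (reach_inl i hi k (by omega)).trans ?_
    apply SimpleGraph.Adj.reachable
    exact lift_adj_of_rel e (LiftRel.spine i ⟨k, by omega⟩ ⟨k + 1, hk⟩ rfl)

include hs in
theorem reach_inr (i j : ι) (hi : i ∈ U) : ∀ (l : ℕ) (hl : l < s),
    (GI N s e T U).Reachable ⟨base hs e i, hi⟩ ⟨.inr (i, j, ⟨l, hl⟩), hi⟩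
  | 0, hl => by
    refine (reach_inl hs e T U i hi ((e j : ℕ) * s) (port_lt hs e j)).trans ?_
    apply SimpleGraph.Adj.reachable
    exact lift_adj_of_rel e (LiftRel.attach i j ⟨(e j : ℕ) * s, port_lt hs e j⟩ ⟨0, hl⟩ rfl rfl)
  | l + 1, hl => by
    refine (reach_inr i j hi l (by omega)).trans ?_
    apply SimpleGraph.Adj.reachable
    exact lift_adj_of_rel e (LiftRel.pendant i j ⟨l, by omega⟩ ⟨l + 1, hl⟩ rfl)

include hs in
theorem reach_base (x : CV ι N s) (hx : CV.proj x ∈ U) :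
    (GI N s e T U).Reachable ⟨base hs e (CV.proj x), hx⟩ ⟨x, hx⟩ := by
  rcases x with ⟨i, k⟩ | ⟨i, j, l⟩
  · exact reach_inl hs e T U i hx k k.isLt
  · exact reach_inr hs e T U i j hx l l.isLt

include hs in
theorem reach_of_adj (i j : ι) (hi : i ∈ U) (hj : j ∈ U) (hij : T.Adj i j) :
    (GI N s e T U).Reachable ⟨base hs e i, hi⟩ ⟨base hs e j, hj⟩ := by
  have h1 := reach_inr hs e T U i j hi (s - 1) (by omega)
  have h2 := reach_inr hs e T U j i hj (s - 1) (by omega)
  refine h1.trans (SimpleGraph.Reachable.trans ?_ h2.symm)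
  apply SimpleGraph.Adj.reachable
  exact lift_adj_of_rel e (LiftRel.cross i j ⟨s - 1, by omega⟩ hij (by simp; omega))

include hs in
theorem reach_of_reach (a b : U) (hab : (T.induce U).Reachable a b) :
    (GI N s e T U).Reachable ⟨base hs e a.1, a.2⟩ ⟨base hs e b.1, b.2⟩ := by
  rw [SimpleGraph.reachable_iff_reflTransGen] at hab
  induction hab with
  | refl => exact SimpleGraph.Reachable.refl _
  | tail _ hbc ih =>
    exact ih.trans (reach_of_adj hs e T U _ _ _ _ hbc)

theorem proj_reach (x y : {x : CV ι N s | CV.proj x ∈ U})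
    (hxy : (GI N s e T U).Reachable x y) :
    (T.induce U).Reachable ⟨CV.proj x.1, x.2⟩ ⟨CV.proj y.1, y.2⟩ := by
  rw [SimpleGraph.reachable_iff_reflTransGen] at hxy
  induction hxy with
  | refl => exact SimpleGraph.Reachable.refl _
  | @tail b c _ hbc ih =>
    refine ih.trans ?_
    have h1 : (lift N s e T).Adj b.1 c.1 := hbc
    rcases proj_of_adj e h1 with h | h
    · have : (⟨CV.proj b.1, b.2⟩ : U) = ⟨CV.proj c.1, c.2⟩ := Subtype.ext h
      rw [this]
    · exact SimpleGraph.Adj.reachable h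

end Reach

theorem lift_induce_connected_iff {N s : ℕ} (hs : 0 < s) (e : ι ≃ Fin N) (T : SimpleGraph ι)
    (U : Set ι) :
    ((lift N s e T).induce {x | CV.proj x ∈ U}).Connected ↔ (T.induce U).Connected := by
  constructor
  · intro h
    rw [SimpleGraph.connected_iff] at h ⊢
    obtain ⟨hp, ⟨x⟩⟩ := h
    refine ⟨?_, ⟨⟨CV.proj x.1, x.2⟩⟩⟩
    intro a b
    have := proj_reach e T U ⟨base hs e a.1, a.2⟩ ⟨base hs e b.1, b.2⟩ (hp _ _)
    exact this
  · intro h
    rw [SimpleGraph.connected_iff] at h ⊢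
    obtain ⟨hp, ⟨a⟩⟩ := h
    refine ⟨?_, ⟨⟨base hs e a.1, a.2⟩⟩⟩
    intro x y
    have h1 := reach_base hs e T U x.1 x.2
    have h2 := reach_base hs e T U y.1 y.2
    have h3 := reach_of_reach hs e T U ⟨CV.proj x.1, x.2⟩ ⟨CV.proj y.1, y.2⟩ (hp _ _)
    exact h1.symm.trans (h3.trans h2)

theorem lift_connected {N s : ℕ} (hs : 0 < s) (e : ι ≃ Fin N) (T : SimpleGraph ι)
    (hT : T.Connected) : (lift N s e T).Connected := by
  have h := (lift_induce_connected_iff hs e T Set.univ).2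
    ((SimpleGraph.induceUnivIso T).connected_iff.2 hT)
  have h2 : {x : CV ι N s | CV.proj x ∈ (Set.univ : Set ι)} = Set.univ := by
    ext x; simp
  rw [h2] at h
  exact (SimpleGraph.induceUnivIso (lift N s e T)).connected_iff.1 h

/-- the child endpoint description of the edges of a lift -/
theorem edgeSet_subset {N s : ℕ} (hs : 0 < s) (e : ι ≃ Fin N) (T : SimpleGraph ι) :
    (lift N s e T).edgeSet ⊆
      (((fun q : ι × Fin (N * s - 1) =>
          s((Sum.inl (q.1, ⟨q.2, by have := q.2.isLt; omega⟩) : CV ι N s),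
            Sum.inl (q.1, ⟨q.2 + 1, by have := q.2.isLt; omega⟩))) '' Set.univ) ∪
       ((fun q : ι × ι × Fin s =>
          if h0 : (q.2.2 : ℕ) = 0 then
            s((Sum.inl (q.1, ⟨(e q.2.1 : ℕ) * s, port_lt hs e q.2.1⟩) : CV ι N s), Sum.inr q)
          else
            s((Sum.inr (q.1, q.2.1, ⟨q.2.2 - 1, by omega⟩) : CV ι N s), Sum.inr q)) '' Set.univ)) ∪
       ((Sym2.lift ⟨fun i j : ι => s((Sum.inr (i, j, ⟨s - 1, by omega⟩) : CV ι N s),
            Sum.inr (j, i, ⟨s - 1, by omega⟩)), fun i j => Sym2.eq_swap⟩) '' T.edgeSet) := by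
  have key : ∀ x y : CV ι N s, LiftRel N s e T x y → s(x, y) ∈
      (((fun q : ι × Fin (N * s - 1) =>
          s((Sum.inl (q.1, ⟨q.2, by have := q.2.isLt; omega⟩) : CV ι N s),
            Sum.inl (q.1, ⟨q.2 + 1, by have := q.2.isLt; omega⟩))) '' Set.univ) ∪
       ((fun q : ι × ι × Fin s =>
          if h0 : (q.2.2 : ℕ) = 0 then
            s((Sum.inl (q.1, ⟨(e q.2.1 : ℕ) * s, port_lt hs e q.2.1⟩) : CV ι N s), Sum.inr q)
          else
            s((Sum.inr (q.1, q.2.1, ⟨q.2.2 - 1, by omega⟩) : CV ι N s), Sum.inr q)) '' Set.univ)) ∪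
       ((Sym2.lift ⟨fun i j : ι => s((Sum.inr (i, j, ⟨s - 1, by omega⟩) : CV ι N s),
            Sum.inr (j, i, ⟨s - 1, by omega⟩)), fun i j => Sym2.eq_swap⟩) '' T.edgeSet) := by
    intro x y hxy
    cases hxy with
    | spine i k k' h1 =>
      refine Or.inl (Or.inl ⟨(i, ⟨k, by have := k'.isLt; omega⟩), trivial, ?_⟩)
      have : (⟨(k : ℕ) + 1, by have := k'.isLt; omega⟩ : Fin (N * s)) = k' := Fin.ext h1.symm
      simp [this]
    | attach i j k l hk hl =>
      refine Or.inl (Or.inr ⟨(i, j, l), trivial, ?_⟩)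
      have : (⟨(e j : ℕ) * s, port_lt hs e j⟩ : Fin (N * s)) = k := Fin.ext hk.symm
      simp [hl, this]
    | pendant i j l l' h1 =>
      refine Or.inl (Or.inr ⟨(i, j, l'), trivial, ?_⟩)
      have h0 : (l' : ℕ) ≠ 0 := by omega
      have : (⟨(l' : ℕ) - 1, by omega⟩ : Fin s) = l := Fin.ext (by simp [h1])
      simp [h0, this]
    | cross i j l hij h1 =>
      refine Or.inr ⟨s(i, j), hij, ?_⟩
      have : (⟨s - 1, by omega⟩ : Fin s) = l := Fin.ext (by simp; omega)
      simp [this]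
  intro ed hed
  induction ed using Sym2.ind with
  | _ x y =>
    have hxy : (lift N s e T).Adj x y := hed
    rw [lift, SimpleGraph.fromRel_adj] at hxy
    rcases hxy.2 with h | h
    · exact key x y h
    · rw [Sym2.eq_swap]; exact key y x h

theorem lift_isTree [Finite ι] {N s : ℕ} (hs : 0 < s) (e : ι ≃ Fin N) (T : SimpleGraph ι)
    (hT : T.IsTree) : (lift N s e T).IsTree := by
  have hconn := lift_connected hs e T hT.connected
  rw [SimpleGraph.isTree_iff_connected_and_card]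
  refine ⟨hconn, le_antisymm ?_ hconn.card_vert_le_card_edgeSet_add_one⟩
  have hι : Nat.card ι = N := by rw [Nat.card_congr e, Nat.card_fin]
  have hE : Nat.card T.edgeSet + 1 = N := by
    rw [← hι]; exact (SimpleGraph.isTree_iff_connected_and_card.1 hT).2
  have hcardV : Nat.card (CV ι N s) = N * (N * s) + N * (N * s) := by
    unfold CV
    rw [Nat.card_sum, Nat.card_prod, Nat.card_prod, Nat.card_prod, hι, Nat.card_fin, Nat.card_fin]
  have hle := Set.ncard_le_ncard (edgeSet_subset hs e T) (Set.toFinite _)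
  have h1 := Set.ncard_union_le
    (((fun q : ι × Fin (N * s - 1) =>
          s((Sum.inl (q.1, ⟨q.2, by have := q.2.isLt; omega⟩) : CV ι N s),
            Sum.inl (q.1, ⟨q.2 + 1, by have := q.2.isLt; omega⟩))) '' Set.univ) ∪
       ((fun q : ι × ι × Fin s =>
          if h0 : (q.2.2 : ℕ) = 0 then
            s((Sum.inl (q.1, ⟨(e q.2.1 : ℕ) * s, port_lt hs e q.2.1⟩) : CV ι N s), Sum.inr q)
          else
            s((Sum.inr (q.1, q.2.1, ⟨q.2.2 - 1, by omega⟩) : CV ι N s), Sum.inr q)) '' Set.univ))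
       ((Sym2.lift ⟨fun i j : ι => s((Sum.inr (i, j, ⟨s - 1, by omega⟩) : CV ι N s),
            Sum.inr (j, i, ⟨s - 1, by omega⟩)), fun i j => Sym2.eq_swap⟩) '' T.edgeSet)
  have h2 := Set.ncard_union_le
    ((fun q : ι × Fin (N * s - 1) =>
          s((Sum.inl (q.1, ⟨q.2, by have := q.2.isLt; omega⟩) : CV ι N s),
            Sum.inl (q.1, ⟨q.2 + 1, by have := q.2.isLt; omega⟩))) '' Set.univ)
       ((fun q : ι × ι × Fin s =>
          if h0 : (q.2.2 : ℕ) = 0 then
            s((Sum.inl (q.1, ⟨(e q.2.1 : ℕ) * s, port_lt hs e q.2.1⟩) : CV ι N s), Sum.inr q)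
          else
            s((Sum.inr (q.1, q.2.1, ⟨q.2.2 - 1, by omega⟩) : CV ι N s), Sum.inr q)) '' Set.univ)
  have h3 := Set.ncard_image_le (Set.toFinite (Set.univ : Set (ι × Fin (N * s - 1))))
    (f := (fun q : ι × Fin (N * s - 1) =>
          s((Sum.inl (q.1, ⟨q.2, by have := q.2.isLt; omega⟩) : CV ι N s),
            Sum.inl (q.1, ⟨q.2 + 1, by have := q.2.isLt; omega⟩))))
  have h4 := Set.ncard_image_le (Set.toFinite (Set.univ : Set (ι × ι × Fin s)))
    (f := (fun q : ι × ι × Fin s =>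
          if h0 : (q.2.2 : ℕ) = 0 then
            s((Sum.inl (q.1, ⟨(e q.2.1 : ℕ) * s, port_lt hs e q.2.1⟩) : CV ι N s), Sum.inr q)
          else
            s((Sum.inr (q.1, q.2.1, ⟨q.2.2 - 1, by omega⟩) : CV ι N s), Sum.inr q)))
  have h5 := Set.ncard_image_le (Set.toFinite T.edgeSet)
    (f := (Sym2.lift ⟨fun i j : ι => s((Sum.inr (i, j, ⟨s - 1, by omega⟩) : CV ι N s),
            Sum.inr (j, i, ⟨s - 1, by omega⟩)), fun i j => Sym2.eq_swap⟩))
  rw [Set.ncard_univ, Nat.card_prod, hι, Nat.card_fin] at h3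
  rw [Set.ncard_univ, Nat.card_prod, Nat.card_prod, hι, Nat.card_fin] at h4
  have hN : 0 < N := by omega
  have hNs : 0 < N * s := Nat.mul_pos hN hs
  have h6 : N * (N * s - 1) + N = N * (N * s) := by
    conv_lhs => rw [← Nat.mul_add_one]
    congr 1
    omega
  rw [hcardV]
  change (lift N s e T).edgeSet.ncard + 1 ≤ _
  have hE' : T.edgeSet.ncard + 1 = N := hE
  omega

theorem comb_connected {N s : ℕ} (hs : 0 < s) (hN : 0 < N) (e : ι ≃ Fin N) :
    (lift N s e (⊤ : SimpleGraph ι)).Connected := by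
  have : Nonempty ι := ⟨e.symm ⟨0, hN⟩⟩
  exact lift_connected hs e ⊤ SimpleGraph.connected_top

end Pool.Agent.Helper71.STPG1b
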