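import Pool.Agent.Helper9.STP.Defs
import Pool.Agent.Helper9.STP.Graphs

/-!
# The map of the comb graph to the grid, and bounded expansion from bounded degree
-/

namespace Pool.Agent.Helper9.SpTree
open scoped Classical

/-- the grid position of a vertex of the comb graph -/
noncomputable def combPos {ι : Type} {N s : ℕ} (e : ι ≃ Fin N) : CV ι N s → ℕ × ℕ
  | .inl (i, k) => (min ((e i : ℕ) * s) k, max ((e i : ℕ) * s) k)
  | .inr (i, j, l) =>
      (min ((e i : ℕ) * s) ((e j : ℕ) * s) + l, max ((e i : ℕ) * s) ((e j : ℕ) * s) + l)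

theorem combPos_rel {ι : Type} {N s : ℕ} (e : ι ≃ Fin N) (T : SimpleGraph ι) (u v : CV ι N s)
    (h : LiftRel N s e T u v) :
    ((combPos e u).1 ≤ (combPos e v).1 + 1 ∧ (combPos e u).2 ≤ (combPos e v).2 + 1) ∧
    ((combPos e v).1 ≤ (combPos e u).1 + 1 ∧ (combPos e v).2 ≤ (combPos e u).2 + 1) := by
  cases h with
  | spine i k k' h =>
    simp only [combPos]
    omega
  | attach i j k l hk hl =>
    simp only [combPos]
    rw [hk, hl]
    omega
  | pendant i j l l' h =>
    simp only [combPos]
    omega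
  | cross i j l hij h =>
    simp only [combPos]
    rw [min_comm, max_comm]
    omega

/-- the code of a vertex within its fibre -/
noncomputable def combCode {ι : Type} {N s : ℕ} (e : ι ≃ Fin N) (p : ℕ × ℕ) :
    CV ι N s → Bool × Bool
  | .inl (i, _) => (true, decide ((e i : ℕ) * s = p.1))
  | .inr (i, _, l) => (false, decide ((e i : ℕ) * s + l = p.1))

theorem mul_add_inj {s a b l m : ℕ} (hl : l < s) (hm : m < s) (h : a * s + l = b * s + m) :
    a = b ∧ l = m := by
  have hs : 0 < s := by omega
  have h1 : (a * s + l) / s = a := by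
    rw [mul_comm, Nat.mul_add_div hs, Nat.div_eq_of_lt hl]; rfl
  have h2 : (b * s + m) / s = b := by
    rw [mul_comm, Nat.mul_add_div hs, Nat.div_eq_of_lt hm]; rfl
  have hab : a = b := by rw [← h1, ← h2, h]
  subst hab
  exact ⟨rfl, by omega⟩

theorem min_mul_add (s a b l : ℕ) : min (a * s) (b * s) + l = min a b * s + l := by
  rw [Nat.mul_min_mul_right]

/-- **Module S2.** The comb graph has such a map. -/
theorem comb_map {ι : Type} [Finite ι] {N s : ℕ} (hs : 0 < s) (e : ι ≃ Fin N) (T : SimpleGraph ι) :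
    ∃ φ : CV ι N s → ℕ × ℕ,
      (∀ u v, (lift N s e T).Adj u v → (φ u).1 ≤ (φ v).1 + 1 ∧ (φ u).2 ≤ (φ v).2 + 1) ∧
      (∀ p, {v | φ v = p}.ncard ≤ 4) := by
  refine ⟨combPos e, ?_, ?_⟩
  · intro u v h
    rw [lift, SimpleGraph.fromRel_adj] at h
    rcases h.2 with h | h
    · exact (combPos_rel e T u v h).1
    · exact (combPos_rel e T v u h).2
  · intro p
    have hinj : Set.InjOn (combCode e p) {v : CV ι N s | combPos e v = p} := by
      have hmi : ∀ {i i' : ι}, (e i : ℕ) * s = (e i' : ℕ) * s → i = i' := by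
        intro i i' h
        exact e.injective (Fin.ext (Nat.eq_of_mul_eq_mul_right hs h))
      rintro (⟨i, k⟩ | ⟨i, j, l⟩) hu (⟨i', k'⟩ | ⟨i', j', l'⟩) hv hc
      · simp only [combCode, Prod.mk.injEq, true_and, decide_eq_decide] at hc
        simp only [Set.mem_ofPred_eq, combPos] at hu hv
        have hu1 := congrArg Prod.fst hu
        have hu2 := congrArg Prod.snd hu
        have hv1 := congrArg Prod.fst hv
        have hv2 := congrArg Prod.snd hv
        dsimp only at hu1 hu2 hv1 hv2
        by_cases h1 : (e i : ℕ) * s = p.1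
        · have h2 : (e i' : ℕ) * s = p.1 := hc.1 h1
          have hi := hmi (h1.trans h2.symm)
          subst hi
          have hk : (k : ℕ) = k' := by omega
          rw [Fin.ext hk]
        · have h2 : ¬ (e i' : ℕ) * s = p.1 := fun h => h1 (hc.2 h)
          have h3 : (e i : ℕ) * s = (e i' : ℕ) * s := by omega
          have hi := hmi h3
          subst hi
          have hk : (k : ℕ) = k' := by omega
          rw [Fin.ext hk]
      · simp [combCode] at hc
      · simp [combCode] at hc
      · simp only [combCode, Prod.mk.injEq, true_and, decide_eq_decide] at hc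
        simp only [Set.mem_ofPred_eq, combPos] at hu hv
        have hu1 := congrArg Prod.fst hu
        have hu2 := congrArg Prod.snd hu
        have hv1 := congrArg Prod.fst hv
        have hv2 := congrArg Prod.snd hv
        dsimp only at hu1 hu2 hv1 hv2
        have hl : (l : ℕ) = l' := by
          have h1 : min (e i : ℕ) (e j) * s + l = min (e i' : ℕ) (e j') * s + l' := by
            rw [← min_mul_add, ← min_mul_add, hu1, hv1]
          exact (mul_add_inj l.2 l'.2 h1).2
        have hl' : l = l' := Fin.ext hl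
        subst hl'
        by_cases h1 : (e i : ℕ) * s + l = p.1
        · have h2 : (e i' : ℕ) * s + l = p.1 := hc.1 h1
          have hi := hmi (Nat.add_right_cancel (h1.trans h2.symm))
          subst hi
          have h4 : (e j : ℕ) * s = (e j' : ℕ) * s := by omega
          have hj := hmi h4
          subst hj
          rfl
        · have h2 : ¬ (e i' : ℕ) * s + l = p.1 := fun h => h1 (hc.2 h)
          have h3 : (e i : ℕ) * s = (e i' : ℕ) * s := by omega
          have hi := hmi h3
          subst hi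
          have h4 : (e j : ℕ) * s = (e j' : ℕ) * s := by omega
          have hj := hmi h4
          subst hj
          rfl
    calc {v : CV ι N s | combPos e v = p}.ncard
        ≤ (Set.univ : Set (Bool × Bool)).ncard :=
          Set.ncard_le_ncard_of_injOn (combCode e p) (fun _ _ => Set.mem_univ _) hinj
            (Set.toFinite _)
      _ = 4 := by rw [Set.ncard_univ]; simp

theorem ball_ncard_le {V : Type} [Finite V] {Δ : ℕ} (G : SimpleGraph V)
    (h : ∀ v, (G.neighborSet v).ncard ≤ Δ) : ∀ (r : ℕ) (z : V),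
    {x | ∃ p : G.Walk z x, p.length ≤ r}.ncard ≤ (Δ + 1) ^ r := by
  intro r
  induction r with
  | zero =>
    intro z
    have hsub : {x | ∃ p : G.Walk z x, p.length ≤ 0} ⊆ {z} := by
      rintro x ⟨p, hp⟩
      exact (SimpleGraph.Walk.eq_of_length_eq_zero (Nat.le_zero.1 hp)).symm
    calc _ ≤ ({z} : Set V).ncard := Set.ncard_le_ncard hsub (Set.toFinite _)
      _ = 1 := Set.ncard_singleton z
      _ ≤ _ := by simp
  | succ r ih =>
    intro z
    have hsub : {x | ∃ p : G.Walk z x, p.length ≤ r + 1} ⊆
        {z} ∪ ⋃ y ∈ (G.neighborSet z).toFinite.toFinset, {x | ∃ p : G.Walk y x, p.length ≤ r} := by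
      rintro x ⟨p, hp⟩
      cases p with
      | nil => left; rfl
      | @cons _ y _ hadj q =>
        right
        simp only [Set.mem_iUnion]
        refine ⟨y, ?_, q, ?_⟩
        · simpa using hadj
        · rw [SimpleGraph.Walk.length_cons] at hp; omega
    calc _ ≤ ({z} ∪ ⋃ y ∈ (G.neighborSet z).toFinite.toFinset,
          {x | ∃ p : G.Walk y x, p.length ≤ r} : Set V).ncard :=
            Set.ncard_le_ncard hsub (Set.toFinite _)
      _ ≤ ({z} : Set V).ncard + (⋃ y ∈ (G.neighborSet z).toFinite.toFinset,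
          {x | ∃ p : G.Walk y x, p.length ≤ r} : Set V).ncard := Set.ncard_union_le _ _
      _ ≤ 1 + Δ * (Δ + 1) ^ r := by
          rw [Set.ncard_singleton]
          gcongr
          calc _ ≤ ∑ y ∈ (G.neighborSet z).toFinite.toFinset,
                ({x | ∃ p : G.Walk y x, p.length ≤ r} : Set V).ncard :=
                  Finset.set_ncard_biUnion_le _ _
            _ ≤ ∑ y ∈ (G.neighborSet z).toFinite.toFinset, (Δ + 1) ^ r :=
                Finset.sum_le_sum fun y _ => ih y
            _ = (G.neighborSet z).ncard * (Δ + 1) ^ r := by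
                rw [Finset.sum_const, Set.ncard_eq_toFinset_card (G.neighborSet z)
                  (Set.toFinite _), smul_eq_mul]
            _ ≤ _ := by gcongr; exact h z
      _ ≤ (Δ + 1) ^ (r + 1) := by
          have : 1 ≤ (Δ + 1) ^ r := Nat.one_le_pow _ _ (by omega)
          rw [pow_succ]
          nlinarith

/-- **Module E.** bounded degree implies bounded expansion. -/
theorem expansion_of_degree {V : Type} [Finite V] {Δ r k : ℕ} (G : SimpleGraph V)
    (h : ∀ v, (G.neighborSet v).ncard ≤ Δ) (H : SimpleGraph (Fin k)) (hH : ShallowMinor r H G) :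
    H.edgeSet.ncard ≤ (Δ * (Δ + 1) ^ r) * k := by
  obtain ⟨bag, hdisj, hrad, hadj⟩ := hH
  -- the pairs leaving the bags
  let P : Fin k → Set (V × V) := fun w =>
    ⋃ x ∈ (bag w).toFinite.toFinset, (fun y => (x, y)) '' G.neighborSet x
  have hPcard : ∀ w, (P w).ncard ≤ Δ * (Δ + 1) ^ r := by
    intro w
    obtain ⟨z, hz, hzr⟩ := hrad w
    have hbag : (bag w).ncard ≤ (Δ + 1) ^ r := by
      refine (Set.ncard_le_ncard ?_ (Set.toFinite _)).trans (ball_ncard_le G h r z)
      intro x hx
      obtain ⟨p, hp, _⟩ := hzr x hx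
      exact ⟨p, hp⟩
    calc (P w).ncard ≤ ∑ x ∈ (bag w).toFinite.toFinset,
          ((fun y => (x, y)) '' G.neighborSet x : Set (V × V)).ncard :=
            Finset.set_ncard_biUnion_le _ _
      _ ≤ ∑ x ∈ (bag w).toFinite.toFinset, Δ :=
          Finset.sum_le_sum fun x _ => (Set.ncard_image_le (Set.toFinite _)).trans (h x)
      _ = (bag w).ncard * Δ := by
          rw [Finset.sum_const, Set.ncard_eq_toFinset_card (bag w) (Set.toFinite _), smul_eq_mul]
      _ ≤ (Δ + 1) ^ r * Δ := by gcongr
      _ = _ := mul_comm _ _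
  have hU : (⋃ w ∈ (Finset.univ : Finset (Fin k)), P w).ncard ≤ (Δ * (Δ + 1) ^ r) * k := by
    calc _ ≤ ∑ w : Fin k, (P w).ncard := Finset.set_ncard_biUnion_le _ _
      _ ≤ ∑ w : Fin k, Δ * (Δ + 1) ^ r := Finset.sum_le_sum fun w _ => hPcard w
      _ = _ := by rw [Finset.sum_const, Finset.card_univ, Fintype.card_fin, smul_eq_mul, mul_comm]
  -- choose a pair for each edge
  have hch : ∀ ed : Sym2 (Fin k), ed ∈ H.edgeSet → ∃ q : V × V,
      ∃ w w', ed = s(w, w') ∧ q.1 ∈ bag w ∧ q.2 ∈ bag w' ∧ G.Adj q.1 q.2 := by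
    intro ed hed
    induction ed using Sym2.ind with
    | _ w w' =>
      obtain ⟨x, hx, y, hy, hxy⟩ := hadj w w' hed
      exact ⟨(x, y), w, w', rfl, hx, hy, hxy⟩
  rcases H.edgeSet.eq_empty_or_nonempty with he | ⟨ed0, hed0⟩
  · rw [he]; simp
  obtain ⟨q0, -⟩ := hch ed0 hed0
  have hne : Nonempty (V × V) := ⟨q0⟩
  choose! g hg using hch
  refine le_trans (Set.ncard_le_ncard_of_injOn g ?_ ?_ (Set.toFinite _)) hU
  · intro ed hed
    obtain ⟨w, w', -, h1, h2, h3⟩ := hg ed hed
    simp only [Set.mem_iUnion]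
    refine ⟨w, Finset.mem_univ _, ?_⟩
    simp only [P, Set.mem_iUnion]
    exact ⟨(g ed).1, by simpa using h1, (g ed).2, h3, rfl⟩
  · intro ed hed ed' hed' heq
    obtain ⟨w, w', h0, h1, h2, -⟩ := hg ed hed
    obtain ⟨v, v', h0', h1', h2', -⟩ := hg ed' hed'
    rw [← heq] at h1' h2'
    have hwv : w = v := by
      by_contra hne
      exact Set.disjoint_left.1 (hdisj w v hne) h1 h1'
    have hwv' : w' = v' := by
      by_contra hne
      exact Set.disjoint_left.1 (hdisj w' v' hne) h2 h2'
    rw [h0, h0', hwv, hwv']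

end Pool.Agent.Helper9.SpTree
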