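import Pool.Agent.Helper10.Sub.Hasse

/-!
# Generalised Wronskians with Hasse derivatives
-/

set_option autoImplicit false

namespace Pool.Agent.Helper71.Sub

open MvPolynomial Pool.Agent.Helper10.Sub Module

/-! ### Echelon families -/

section echelon
variable {σ : Type*}

theorem echelon (m : MonomialOrder σ) : ∀ (n : ℕ) (V : Submodule ℚ (MvPolynomial σ ℚ))
    [FiniteDimensional ℚ V], n ≤ finrank ℚ V →
    ∃ (h : Fin n → MvPolynomial σ ℚ) (e : Fin n → (σ →₀ ℕ)), Function.Injective e ∧
      (∀ j, h j ∈ V) ∧ (∀ j, coeff (e j) (h j) ≠ 0) ∧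
      (∀ j, ∀ k, coeff k (h j) ≠ 0 → m.toSyn k ≤ m.toSyn (e j))
  | 0, V, _, _ => ⟨Fin.elim0, Fin.elim0, fun i => i.elim0, fun i => i.elim0, fun i => i.elim0,
      fun i => i.elim0⟩
  | n + 1, V, _, hn => by
    set T : Set (σ →₀ ℕ) := {k | ∃ v ∈ V, coeff k v ≠ 0} with hT
    have hTfin : T.Finite := by
      obtain ⟨s, hs⟩ := (inferInstance : Module.Finite ℚ V).fg_top
      have hV : V = Submodule.span ℚ ((Subtype.val : V → _) '' (s : Set V)) := by
        have := congrArg (Submodule.map V.subtype) hs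
        rw [Submodule.map_span, Submodule.map_top, Submodule.range_subtype] at this
        exact this.symm
      apply Set.Finite.subset (s := ⋃ v ∈ (s : Set V), (((v : V) : MvPolynomial σ ℚ).support : Set _))
      · exact Set.Finite.biUnion s.finite_toSet fun v _ => Finset.finite_toSet _
      · rintro k ⟨v, hv, hk⟩
        by_contra hcon
        apply hk
        rw [hV] at hv
        induction hv using Submodule.span_induction with
        | mem x hx =>
          obtain ⟨v, hv, rfl⟩ := hx
          by_contra hne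
          apply hcon
          simp only [Set.mem_iUnion]
          exact ⟨v, hv, by simpa using hne⟩
        | zero => simp
        | add x y _ _ hx hy =>
          rw [coeff_add]
          by_cases h1 : coeff k x = 0
          · by_cases h2 : coeff k y = 0
            · rw [h1, h2, add_zero]
            · exact absurd (hy h2) h2
          · exact absurd (hx h1) h1
        | smul a x _ hx =>
          rw [coeff_smul]
          by_cases h1 : coeff k x = 0
          · rw [h1, smul_zero]
          · exact absurd (hx h1) h1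
    have hTne : T.Nonempty := by
      have hVne : V ≠ ⊥ := by
        rintro rfl
        simp at hn
      obtain ⟨v, hv, hv0⟩ := Submodule.exists_mem_ne_zero_of_ne_bot hVne
      obtain ⟨k, hk⟩ := MvPolynomial.ne_zero_iff.mp hv0
      exact ⟨k, v, hv, hk⟩
    obtain ⟨e0, he0, hmax⟩ := Set.exists_max_image T m.toSyn hTfin hTne
    obtain ⟨h0, hh0, hc0⟩ := he0
    set φ : V →ₗ[ℚ] ℚ := (lcoeff (R := ℚ) e0).domRestrict V with hφ
    set V' : Submodule ℚ (MvPolynomial σ ℚ) := Submodule.map V.subtype (LinearMap.ker φ) with hV'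
    have hle : V' ≤ V := by
      rintro x ⟨y, _, rfl⟩
      exact y.2
    have : FiniteDimensional ℚ V' := Submodule.finiteDimensional_of_le hle
    have hfr : n ≤ finrank ℚ V' := by
      rw [hV', Submodule.finrank_map_subtype_eq]
      have h1 := LinearMap.finrank_range_add_finrank_ker φ
      have h2 : finrank ℚ (LinearMap.range φ) ≤ 1 := by
        have := Submodule.finrank_le (LinearMap.range φ)
        simpa using this
      omega
    obtain ⟨h', e', hinj, hmem, hcoef, hbd⟩ := echelon m n V' hfr
    have hV'0 : ∀ x ∈ V', coeff e0 x = 0 := by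
      rintro x ⟨y, hy, rfl⟩
      exact hy
    refine ⟨Fin.cons h0 h', Fin.cons e0 e', ?_, ?_, ?_, ?_⟩
    · rw [Fin.cons_injective_iff]
      refine ⟨?_, hinj⟩
      rintro ⟨j, hj⟩
      exact hcoef j (hj ▸ hV'0 _ (hmem j))
    · intro j
      refine Fin.cases ?_ (fun j => ?_) j
      · exact hh0
      · exact hle (hmem j)
    · intro j
      refine Fin.cases ?_ (fun j => ?_) j
      · exact hc0
      · exact hcoef j
    · intro j
      refine Fin.cases ?_ (fun j => ?_) j
      · intro k hk
        exact hmax k ⟨h0, hh0, hk⟩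
      · exact hbd j

end echelon

/-! ### Binomial determinants -/

section binom
variable {σ : Type*} [Fintype σ] {n : ℕ}

/-- the vector of products of binomial coefficients -/
def bv (e : Fin n → (σ →₀ ℕ)) (K : σ →₀ ℕ) : Fin n → ℚ :=
  fun j => ((∏ h, (e j h).choose (K h) : ℕ) : ℚ)

/-- the span of the vectors of order at most `i` -/
def bV (e : Fin n → (σ →₀ ℕ)) (i : ℕ) : Submodule ℚ (Fin n → ℚ) :=
  Submodule.span ℚ {v | ∃ K : σ →₀ ℕ, ∑ h, K h ≤ i ∧ v = bv e K}

theorem bV_mono (e : Fin n → (σ →₀ ℕ)) {i j : ℕ} (hij : i ≤ j) : bV e i ≤ bV e j := by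
  apply Submodule.span_mono
  rintro v ⟨K, hK, rfl⟩
  exact ⟨K, hK.trans hij, rfl⟩

theorem nat_binom (a k : ℕ) : a * a.choose k = (k + 1) * a.choose (k + 1) + k * a.choose k := by
  have h := Nat.choose_succ_right_eq a k
  by_cases hk : k ≤ a
  · obtain ⟨d, rfl⟩ := Nat.exists_eq_add_of_le hk
    rw [Nat.add_sub_cancel_left] at h
    rw [mul_comm (k + 1), h]; ring
  · rw [Nat.choose_eq_zero_of_lt (by omega), Nat.choose_eq_zero_of_lt (by omega)]
    simp

theorem bv_mul (e : Fin n → (σ →₀ ℕ)) (K : σ →₀ ℕ) (h : σ) :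
    (fun j => ((e j h : ℕ) : ℚ) * bv e K j) =
      ((K h : ℚ) + 1) • bv e (K + Finsupp.single h 1) + (K h : ℚ) • bv e K := by
  classical
  funext j
  simp only [bv, Pi.add_apply, Pi.smul_apply, smul_eq_mul]
  have h1 : ∀ L : σ →₀ ℕ, ∏ x, (e j x).choose (L x) =
      (e j h).choose (L h) * ∏ x ∈ Finset.univ.erase h, (e j x).choose (L x) := by
    intro L
    exact (Finset.mul_prod_erase _ (fun x => (e j x).choose (L x)) (Finset.mem_univ h)).symm
  rw [h1 K, h1 (K + Finsupp.single h 1)]
  have h2 : ∏ x ∈ Finset.univ.erase h, (e j x).choose ((K + Finsupp.single h 1 : σ →₀ ℕ) x) =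
      ∏ x ∈ Finset.univ.erase h, (e j x).choose (K x) := by
    apply Finset.prod_congr rfl
    intro x hx
    rw [Finsupp.add_apply, Finsupp.single_eq_of_ne (Finset.ne_of_mem_erase hx), add_zero]
  rw [h2]
  simp only [Finsupp.add_apply, Finsupp.single_eq_same]
  have h3 : ((e j h : ℕ) : ℚ) * ((e j h).choose (K h) : ℕ) =
      ((K h : ℚ) + 1) * ((e j h).choose (K h + 1) : ℕ) + (K h : ℚ) * ((e j h).choose (K h) : ℕ) := by
    exact_mod_cast nat_binom (e j h) (K h)
  push_cast
  rw [← mul_assoc, h3]
  ring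

theorem mul_mem_bV (e : Fin n → (σ →₀ ℕ)) (h : σ) {i : ℕ} {v : Fin n → ℚ} (hv : v ∈ bV e i) :
    (fun j => ((e j h : ℕ) : ℚ) * v j) ∈ bV e (i + 1) := by
  classical
  unfold bV at hv
  induction hv using Submodule.span_induction with
  | mem x hx =>
    obtain ⟨K, hK, rfl⟩ := hx
    rw [bv_mul]
    refine Submodule.add_mem _ (Submodule.smul_mem _ _ (Submodule.subset_span ?_))
      (Submodule.smul_mem _ _ (Submodule.subset_span ?_))
    · refine ⟨_, ?_, rfl⟩
      simp only [Finsupp.add_apply, Finset.sum_add_distrib]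
      have : ∑ x : σ, (Finsupp.single h 1 : σ →₀ ℕ) x = 1 := by
        rw [Finset.sum_eq_single h]
        · simp
        · intro b _ hb
          rw [Finsupp.single_eq_of_ne hb]
        · simp
      omega
    · exact ⟨K, by omega, rfl⟩
  | zero =>
    have : (fun j => ((e j h : ℕ) : ℚ) * (0 : Fin n → ℚ) j) = 0 := by
      funext j; simp
    rw [this]
    exact Submodule.zero_mem _
  | add x y _ _ hx hy =>
    have : (fun j => ((e j h : ℕ) : ℚ) * (x + y) j) =
        (fun j => ((e j h : ℕ) : ℚ) * x j) + (fun j => ((e j h : ℕ) : ℚ) * y j) := by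
      funext j; simp [mul_add]
    rw [this]
    exact Submodule.add_mem _ hx hy
  | smul a x _ hx =>
    have : (fun j => ((e j h : ℕ) : ℚ) * (a • x) j) = a • (fun j => ((e j h : ℕ) : ℚ) * x j) := by
      funext j; simp; ring
    rw [this]
    exact Submodule.smul_mem _ _ hx

theorem one_mem_bV (e : Fin n → (σ →₀ ℕ)) : (fun _ => (1 : ℚ)) ∈ bV e 0 := by
  apply Submodule.subset_span
  refine ⟨0, by simp, ?_⟩
  funext j
  simp [bv]

theorem prod_mem_bV (e : Fin n → (σ →₀ ℕ)) {α : Type*} (T : Finset α) (h : α → σ) (c : α → ℚ) :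
    (fun j => ∏ t ∈ T, (((e j (h t) : ℕ) : ℚ) - c t)) ∈ bV e T.card := by
  classical
  induction T using Finset.induction_on with
  | empty => simpa using one_mem_bV e
  | insert a T ha ih =>
    rw [Finset.card_insert_of_notMem ha]
    have : (fun j => ∏ t ∈ insert a T, (((e j (h t) : ℕ) : ℚ) - c t)) =
        (fun j => ((e j (h a) : ℕ) : ℚ) * (∏ t ∈ T, (((e j (h t) : ℕ) : ℚ) - c t))) -
          c a • (fun j => ∏ t ∈ T, (((e j (h t) : ℕ) : ℚ) - c t)) := by
      funext j
      simp only [Finset.prod_insert ha, Pi.sub_apply, Pi.smul_apply, smul_eq_mul]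
      ring
    rw [this]
    exact Submodule.sub_mem _ (mul_mem_bV e (h a) ih)
      (Submodule.smul_mem _ _ (bV_mono e (Nat.le_succ _) ih))

theorem le_finrank_bV (e : Fin n → (σ →₀ ℕ)) (he : Function.Injective e) {i : ℕ} (hi : i < n) :
    i + 1 ≤ finrank ℚ (bV e i) := by
  classical
  -- separating coordinates
  have hsep : ∀ m : Fin n, ∀ l : {l : Fin n // l ≠ m}, ∃ h : σ, e m h ≠ e l.1 h := by
    intro m l
    have : e m ≠ e l.1 := fun h => l.2 (he h).symm
    obtain ⟨h, hh⟩ := Finsupp.ne_iff.mp this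
    exact ⟨h, hh⟩
  choose hs hhs using hsep
  set T : ∀ m : Fin n, Finset {l : Fin n // l ≠ m} := fun m =>
    Finset.univ.filter (fun l => (l.1 : ℕ) ≤ i) with hT
  have hcard : ∀ m : Fin n, (m : ℕ) ≤ i → (T m).card ≤ i := by
    intro m hm
    have h1 : ((T m).image (fun l => (l.1 : ℕ))) ⊆ (Finset.range (i + 1)).erase (m : ℕ) := by
      intro x hx
      rw [Finset.mem_image] at hx
      obtain ⟨l, hl, rfl⟩ := hx
      rw [Finset.mem_erase, Finset.mem_range]
      refine ⟨fun h => l.2 (Fin.ext h), ?_⟩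
      have := (Finset.mem_filter.mp hl).2
      omega
    have h2 := Finset.card_le_card h1
    rw [Finset.card_erase_of_mem (by rw [Finset.mem_range]; omega), Finset.card_range,
      Finset.card_image_of_injective] at h2
    · simpa using h2
    · intro a b hab
      exact Subtype.ext (Fin.ext hab)
  set F : Fin (i + 1) → (Fin n → ℚ) := fun m j =>
    ∏ t ∈ T (Fin.castLE (by omega) m), (((e j (hs _ t) : ℕ) : ℚ) - ((e t.1 (hs _ t) : ℕ) : ℚ)) with hF
  have hFmem : ∀ m, F m ∈ bV e i := by
    intro m
    have h1 := prod_mem_bV e (T (Fin.castLE (by omega) m)) (hs (Fin.castLE (by omega) m))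
      (fun t => ((e t.1 (hs _ t) : ℕ) : ℚ))
    refine bV_mono e (hcard _ ?_) h1
    simp; omega
  have hFz : ∀ m l : Fin (i + 1), l ≠ m → F m (Fin.castLE (by omega) l) = 0 := by
    intro m l hlm
    have hne : (Fin.castLE (by omega) l : Fin n) ≠ Fin.castLE (by omega) m := by
      intro h
      apply hlm
      exact Fin.ext (by simpa using congrArg Fin.val h)
    apply Finset.prod_eq_zero (i := (⟨Fin.castLE (by omega) l, hne⟩ : {l : Fin n // l ≠ _}))
    · rw [hT]
      simp only [Finset.mem_filter, Finset.mem_univ, true_and, Fin.val_castLE]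
      omega
    · simp
  have hFne : ∀ m : Fin (i + 1), F m (Fin.castLE (by omega) m) ≠ 0 := by
    intro m
    apply Finset.prod_ne_zero_iff.mpr
    intro t _
    have := hhs _ t
    rw [sub_ne_zero]
    exact_mod_cast this
  have hli : LinearIndependent ℚ (fun m => (⟨F m, hFmem m⟩ : bV e i)) := by
    rw [Fintype.linearIndependent_iff]
    intro g hg m
    have h1 : ∑ a, g a • F a = 0 := by
      have := congrArg (Submodule.subtype _) hg
      simpa using this
    have h2 := congrFun h1 (Fin.castLE (by omega) m)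
    rw [Finset.sum_apply, Finset.sum_eq_single m] at h2
    · simp only [Pi.smul_apply, smul_eq_mul, Pi.zero_apply] at h2
      exact (mul_eq_zero.mp h2).resolve_right (hFne m)
    · intro b _ hb
      rw [Pi.smul_apply, hFz b m (Ne.symm hb), smul_zero]
    · simp
  have := hli.fintype_card_le_finrank
  simpa using this

theorem exists_bv_indep (e : Fin n → (σ →₀ ℕ)) (he : Function.Injective e) :
    ∀ i : ℕ, i ≤ n → ∃ K : Fin i → (σ →₀ ℕ), (∀ l, ∑ h, K l h ≤ (l : ℕ)) ∧
      LinearIndependent ℚ (fun l => bv e (K l))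
  | 0, _ => ⟨Fin.elim0, fun l => l.elim0, linearIndependent_empty_type⟩
  | i + 1, hi => by
    obtain ⟨K, hK, hli⟩ := exists_bv_indep e he i (by omega)
    have h1 : ¬ (bV e i ≤ Submodule.span ℚ (Set.range fun l => bv e (K l))) := by
      intro hle
      have h2 := Submodule.finrank_mono hle
      have h3 := le_finrank_bV e he (i := i) (by omega)
      have h4 := finrank_range_le_card (R := ℚ) (fun l => bv e (K l))
      rw [Fintype.card_fin, Set.finrank] at h4
      omega
    have h2 : ∃ K' : σ →₀ ℕ, ∑ h, K' h ≤ i ∧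
        bv e K' ∉ Submodule.span ℚ (Set.range fun l => bv e (K l)) := by
      by_contra hcon
      push Not at hcon
      apply h1
      apply Submodule.span_le.mpr
      rintro v ⟨K', hK', rfl⟩
      exact hcon K' hK'
    obtain ⟨K', hK', hnot⟩ := h2
    refine ⟨Fin.snoc K K', ?_, ?_⟩
    · intro l
      refine Fin.lastCases ?_ (fun l => ?_) l
      · simpa using hK'
      · simpa using hK l
    · have : (fun l => bv e ((Fin.snoc K K' : Fin (i + 1) → (σ →₀ ℕ)) l)) =
          (Fin.snoc (fun l => bv e (K l)) (bv e K') : Fin (i + 1) → (Fin n → ℚ)) := by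
        funext l
        refine Fin.lastCases ?_ (fun l => ?_) l
        · simp
        · simp
      rw [this, linearIndependent_finSnoc]
      exact ⟨hli, hnot⟩

end binom

/-! ### The generalised Wronskian -/

section wronskian
variable {σ : Type*} [Fintype σ]

omit [Fintype σ] in
theorem coeff_prod_top (m : MonomialOrder σ) {α : Type*} (s : Finset α)
    (q : α → MvPolynomial σ ℚ) (d : α → (σ →₀ ℕ))
    (hq : ∀ a ∈ s, m.toSyn (m.degree (q a)) ≤ m.toSyn (d a)) :
    m.toSyn (m.degree (∏ a ∈ s, q a)) ≤ m.toSyn (∑ a ∈ s, d a) ∧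
    coeff (∑ a ∈ s, d a) (∏ a ∈ s, q a) = ∏ a ∈ s, coeff (d a) (q a) := by
  classical
  induction s using Finset.induction_on with
  | empty => simp
  | insert a s ha ih =>
    obtain ⟨ih1, ih2⟩ := ih fun b hb => hq b (Finset.mem_insert_of_mem hb)
    have ha' := hq a (Finset.mem_insert_self a s)
    rw [Finset.prod_insert ha, Finset.sum_insert ha, Finset.prod_insert ha]
    constructor
    · refine (m.degree_mul_le).trans ?_
      rw [map_add, map_add]
      exact add_le_add ha' ih1
    · rw [m.coeff_mul_of_add_of_degree_le ha' ih1, ih2]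

theorem exists_wronskian (m : MonomialOrder σ) {n : ℕ} (f : Fin n → MvPolynomial σ ℚ)
    (hf : LinearIndependent ℚ f) :
    ∃ K : Fin n → (σ →₀ ℕ), (∀ i, ∑ h, K i h ≤ (i : ℕ)) ∧
      (Matrix.of fun i j => hd (K i) (f j)).det ≠ 0 := by
  classical
  have hV : finrank ℚ (Submodule.span ℚ (Set.range f)) = n := by
    rw [finrank_span_eq_card hf, Fintype.card_fin]
  have : FiniteDimensional ℚ (Submodule.span ℚ (Set.range f)) :=
    FiniteDimensional.span_of_finite ℚ (Set.finite_range f)
  obtain ⟨h, e, hinj, hmem, hcoef, hbd⟩ := echelon m n (Submodule.span ℚ (Set.range f)) hV.ge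
  obtain ⟨K, hK, hli⟩ := exists_bv_indep e hinj n le_rfl
  refine ⟨K, hK, ?_⟩
  have hc : ∀ j, ∃ c : Fin n → ℚ, ∑ l, c l • f l = h j := fun j =>
    (Submodule.mem_span_range_iff_exists_fun ℚ).mp (hmem j)
  choose c hc using hc
  -- determinant of the binomial matrix
  have hdet : (Matrix.of fun i j => bv e (K i) j).det ≠ 0 := by
    have h1 : IsUnit (Matrix.of fun i j => bv e (K i) j) :=
      Matrix.linearIndependent_rows_iff_isUnit.mp hli
    exact ((Matrix.isUnit_iff_isUnit_det _).mp h1).ne_zero
  -- the matrix with monomial factors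
  set D : Matrix (Fin n) (Fin n) (MvPolynomial σ ℚ) :=
    Matrix.of fun i j => monomial (K i) (1 : ℚ) * hd (K i) (h j) with hD
  have hDcoef : ∀ i j k, coeff k (D i j) =
      coeff k (h j) * ((∏ x, (k x).choose (K i x) : ℕ) : ℚ) := by
    intro i j k
    simp only [hD, Matrix.of_apply]
    rw [coeff_monomial_mul']
    split_ifs with hk
    · rw [coeff_hd, one_mul, tsub_add_cancel_of_le hk]
    · have hz : ∏ x, (k x).choose (K i x) = 0 := by
        rw [Finsupp.le_def] at hk
        push Not at hk
        obtain ⟨x, hx⟩ := hk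
        exact Finset.prod_eq_zero (Finset.mem_univ x) (Nat.choose_eq_zero_of_lt hx)
      rw [hz]; simp
  have hDdeg : ∀ i j, m.toSyn (m.degree (D i j)) ≤ m.toSyn (e j) := by
    intro i j
    rw [m.degree_le_iff]
    intro k hk
    apply hbd
    intro hz
    rw [MvPolynomial.mem_support_iff, hDcoef, hz, zero_mul] at hk
    exact hk rfl
  have hDdet : coeff (∑ j, e j) D.det = (∏ j, coeff (e j) (h j)) *
      (Matrix.of fun i j => bv e (K i) j).det := by
    rw [Matrix.det_apply, Matrix.det_apply, coeff_sum, Finset.mul_sum]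
    apply Finset.sum_congr rfl
    intro π _
    rw [Units.smul_def, Units.smul_def]
    have h1 := (coeff_prod_top m Finset.univ (fun j => D (π j) j) e
      (fun j _ => hDdeg (π j) j)).2
    have h2 : ∏ j, coeff (e j) (D (π j) j) =
        (∏ j, coeff (e j) (h j)) * ∏ j, bv e (K (π j)) j := by
      rw [← Finset.prod_mul_distrib]
      apply Finset.prod_congr rfl
      intro j _
      rw [hDcoef]
      rfl
    rw [coeff_smul, h1, h2, mul_smul_comm]
    rfl
  have hDne : D.det ≠ 0 := by
    intro hz
    rw [hz, coeff_zero] at hDdet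
    exact mul_ne_zero (Finset.prod_ne_zero_iff.mpr fun j _ => hcoef j) hdet hDdet.symm
  have hD2 : D.det = (∏ i, monomial (K i) (1 : ℚ)) *
      (Matrix.of fun i j => hd (K i) (h j)).det := by
    rw [← Matrix.det_mul_column]
    rfl
  have hH : (Matrix.of fun i j => hd (K i) (h j)) =
      (Matrix.of fun i j => hd (K i) (f j)) *
        (Matrix.of fun (l j : Fin n) => (C (c j l) : MvPolynomial σ ℚ)) := by
    ext1 i j
    rw [Matrix.mul_apply, Matrix.of_apply, ← hc j, hd_sum]
    apply Finset.sum_congr rfl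
    intro l _
    rw [hd_smul, Matrix.of_apply, Matrix.of_apply, smul_eq_C_mul, mul_comm]
  intro hz
  apply hDne
  rw [hD2, hH, Matrix.det_mul, hz, zero_mul, mul_zero]

end wronskian

end Pool.Agent.Helper71.Sub
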